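import Pool.Agent.K9h51.LC.Fin
import Pool.Agent.TH268.PD.PDsum

/-!
# Project LC: macroscopic cycles at times `t ≥ (log L)^m`
-/

set_option autoImplicit false

namespace Pool.Agent.K9h51.LC

open Finset Equiv MeasureTheory
open Pool.Agent.Y998.ST (stirExp nnRate)
open Pool.Agent.TH268.PD (top Cyc cyOf pdm stick)
open Pool.Agent.TH268.PD.Lim (Om tY Y mu)
open Pool.Agent.Y998.LP (bfrac)

/-- the cut-off function -/
noncomputable def cut (a b x : ℝ) : ℝ := max 0 (min 1 ((x - a) / (b - a)))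

theorem cut_cont (a b : ℝ) : Continuous (cut a b) := by
  unfold cut
  fun_prop

theorem cut_nonneg (a b x : ℝ) : 0 ≤ cut a b x := le_max_left _ _

theorem cut_le (a b x : ℝ) : cut a b x ≤ 1 := max_le zero_le_one (min_le_left _ _)

theorem cut_ge {a b x : ℝ} (hab : a < b) (h : b ≤ x) : cut a b x = 1 := by
  unfold cut
  have h1 : 1 ≤ (x - a) / (b - a) := by
    rw [le_div_iff₀ (by linarith)]
    linarith
  rw [min_eq_left h1]
  exact max_eq_right zero_le_one

theorem cut_lt {a b x : ℝ} (hab : a < b) (h : x < a) : cut a b x = 0 := by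
  unfold cut
  have h1 : (x - a) / (b - a) ≤ 0 := div_nonpos_of_nonpos_of_nonneg (by linarith) (by linarith)
  exact max_eq_left ((min_le_right _ _).trans h1)

/-- the point of equal sticks -/
noncomputable def eqs (i : ℕ) (j : ℕ) : unitInterval :=
  if h : j ≤ i then ⟨1 / ((i : ℝ) + 1 - j), by
    have h1 : (j : ℝ) ≤ i := by exact_mod_cast h
    constructor
    · apply div_nonneg zero_le_one
      linarith
    · rw [div_le_one (by linarith)]
      linarith⟩ else 0

theorem eqs_val {i j : ℕ} (h : j ≤ i) : ((eqs i j : unitInterval) : ℝ) = 1 / ((i : ℝ) + 1 - j) := by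
  unfold eqs
  rw [dif_pos h]

theorem eqs_prod (i j : ℕ) (h : j ≤ i + 1) :
    ∏ l ∈ Finset.range j, (1 - ((eqs i l : unitInterval) : ℝ)) = ((i : ℝ) + 1 - j) / (i + 1) := by
  induction j with
  | zero =>
    rw [Finset.prod_range_zero]
    field_simp
    push_cast
    ring
  | succ j ih =>
    rw [Finset.prod_range_succ, ih (by omega), eqs_val (by omega)]
    have h1 : (j : ℝ) ≤ i := by exact_mod_cast (by omega : j ≤ i)
    have h2 : (0 : ℝ) < (i : ℝ) + 1 - j := by linarith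
    have h3 : (0 : ℝ) < (i : ℝ) + 1 := by positivity
    field_simp
    push_cast
    ring

theorem eqs_Y (i j : ℕ) (h : j ≤ i) : Y (eqs i) j = 1 / ((i : ℝ) + 1) := by
  unfold Pool.Agent.TH268.PD.Lim.Y
  rw [eqs_prod i j (by omega), eqs_val h]
  have h1 : (j : ℝ) ≤ i := by exact_mod_cast h
  have h2 : (0 : ℝ) < (i : ℝ) + 1 - j := by linarith
  have h3 : (0 : ℝ) < (i : ℝ) + 1 := by positivity
  field_simp

theorem Y_cont (j : ℕ) : Continuous (fun U : Om => Y U j) := by
  unfold Pool.Agent.TH268.PD.Lim.Y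
  fun_prop

theorem vol_pos (O : Set unitInterval) (hO : IsOpen O) (h : O.Nonempty) :
    0 < (volume : Measure unitInterval) O := by
  obtain ⟨O', hO', rfl⟩ := isOpen_induced_iff.1 hO
  obtain ⟨e, he⟩ := h
  rw [volume_set_coe_def, comap_subtype_coe_apply measurableSet_Icc]
  have h1 : Set.Ioo (0 : ℝ) 1 ∩ O' ⊆ Subtype.val '' ((Subtype.val : unitInterval → ℝ) ⁻¹' O') := by
    rintro x ⟨hx1, hx2⟩
    exact ⟨⟨x, hx1.1.le, hx1.2.le⟩, hx2, rfl⟩
  refine lt_of_lt_of_le ?_ (measure_mono h1)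
  refine (isOpen_Ioo.inter hO').measure_pos volume ?_
  have h2 : (e : ℝ) ∈ closure (Set.Ioo (0 : ℝ) 1) := by
    rw [closure_Ioo zero_ne_one]
    exact e.2
  obtain ⟨y, hy1, hy2⟩ := mem_closure_iff.1 h2 O' hO' he
  exact ⟨y, hy2, hy1⟩

/-- many sticks are long with positive probability -/
theorem sticks_pos (i : ℕ) (b : ℝ) (hb : b < 1 / ((i : ℝ) + 1)) :
    ∃ S : Set Om, MeasurableSet S ∧ 0 < mu.real S ∧ ∀ U ∈ S, ∀ j ≤ i, b ≤ Y U j := by
  obtain ⟨O, hO⟩ : ∃ O : Set Om, O = {U | ∀ j ∈ Finset.range (i + 1), b < Y U j} := ⟨_, rfl⟩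
  have hopen : IsOpen O := by
    rw [hO]
    have : {U : Om | ∀ j ∈ Finset.range (i + 1), b < Y U j} =
        ⋂ j ∈ Finset.range (i + 1), {U : Om | b < Y U j} := by
      ext U
      simp
    rw [this]
    exact isOpen_biInter_finset fun j _ => isOpen_lt continuous_const (Y_cont j)
  have hmem : eqs i ∈ O := by
    rw [hO]
    intro j hj
    rw [eqs_Y i j (by
      have := Finset.mem_range.1 hj
      omega)]
    exact hb
  rw [isOpen_pi_iff] at hopen
  obtain ⟨s, u, hu, hsub⟩ := hopen (eqs i) hmem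
  refine ⟨(s : Set ℕ).pi u, ?_, ?_, ?_⟩
  · exact MeasurableSet.pi s.countable_toSet fun j hj => (hu j (by exact_mod_cast hj)).1.measurableSet
  · have h1 : mu ((s : Set ℕ).pi u) = ∏ j ∈ s, (volume : Measure unitInterval) (u j) := by
      unfold Pool.Agent.TH268.PD.Lim.mu
      exact Measure.infinitePi_pi _ fun j hj => (hu j (by exact_mod_cast hj)).1.measurableSet
    have h2 : 0 < mu ((s : Set ℕ).pi u) := by
      rw [h1]
      refine pos_iff_ne_zero.2 (Finset.prod_ne_zero_iff.2 fun j hj => ?_)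
      exact (vol_pos _ (hu j hj).1 ⟨_, (hu j hj).2⟩).ne'
    rw [Measure.real]
    exact ENNReal.toReal_pos h2.ne' (measure_ne_top _ _)
  · intro U hU j hj
    have h1 := hsub hU
    rw [hO] at h1
    exact (h1 j (Finset.mem_range.2 (by omega))).le

theorem tY_ge (i : ℕ) (b : ℝ) (U : Om) (h : ∀ j ≤ i, b ≤ Y U j) : b ≤ tY U i := by
  unfold Pool.Agent.TH268.PD.Lim.tY
  have hg := Pool.Agent.TH268.PD.Lim.good_encard (Y U) (Pool.Agent.TH268.PD.Lim.Y_nonneg U)
    (Pool.Agent.TH268.PD.Lim.Y_le_one U)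
  refine le_csSup ⟨1, hg.ub i⟩ ?_
  simp only [Set.mem_ofPred_eq]
  have h1 : ((Finset.range (i + 1) : Finset ℕ) : Set ℕ) ⊆ {j : ℕ | b ≤ Y U j} := by
    intro j hj
    have := Finset.mem_range.1 (by exact_mod_cast hj)
    exact h j (by omega)
  refine le_trans ?_ (Set.encard_le_encard h1)
  rw [Set.encard_coe_eq_coe_finsetCard, Finset.card_range]

/-- the mean of the cut-off function is positive -/
theorem pdm_cut_pos (i : ℕ) (a b : ℝ) (hab : a < b) (hb : b < 1 / ((i : ℝ) + 1)) :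
    0 < pdm (fun u : Fin (i + 1) → ℝ => cut a b (u (Fin.last i))) := by
  obtain ⟨S, hSm, hS, h⟩ := sticks_pos i b hb
  unfold pdm
  have hmeas : Measurable (fun U : Om => cut a b (tY U i)) :=
    (cut_cont a b).measurable.comp (Pool.Agent.TH268.PD.Lim.measurable_tY i)
  have h1 : ∫ U, S.indicator (fun _ => (1 : ℝ)) U ∂mu ≤ ∫ U, cut a b (tY U i) ∂mu := by
    refine integral_mono ?_ ?_ ?_
    · exact (integrable_const (1 : ℝ)).indicator hSm
    · refine Integrable.of_bound hmeas.aestronglyMeasurable 1 (Filter.Eventually.of_forall ?_)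
      intro U
      rw [Real.norm_eq_abs, abs_of_nonneg (cut_nonneg _ _ _)]
      exact cut_le _ _ _
    · intro U
      beta_reduce
      by_cases hU : U ∈ S
      · rw [Set.indicator_of_mem hU, cut_ge hab (tY_ge i b U (h U hU))]
      · rw [Set.indicator_of_notMem hU]
        exact cut_nonneg _ _ _
  rw [integral_indicator_const _ hSm, smul_eq_mul, mul_one] at h1
  exact lt_of_lt_of_le hS h1

/-- (b) of Q2 at long times -/
theorem mac (d : ℕ) (hd : 3 ≤ d) : ∃ m : ℕ,
    (∀ (i : ℕ) (ε : ℝ), ε < 1 / ((i : ℝ) + 1) → ∃ c : ℝ, 0 < c ∧ ∃ L₀ : ℕ,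
      ∀ (L : ℕ) [NeZero L], L₀ ≤ L → ∀ t : ℝ, (Real.log L) ^ m ≤ t →
      c ≤ stirExp (nnRate d L) t (fun g => if ε ≤ top (bfrac univ g) i then 1 else 0)) ∧
    ∀ η : ℝ, 0 < η → ∃ k L₀ : ℕ, ∀ (L : ℕ) [NeZero L], L₀ ≤ L →
      ∀ t : ℝ, (Real.log L) ^ m ≤ t →
      1 - η ≤ ∑ i ∈ Finset.range k, stirExp (nnRate d L) t (fun g => top (bfrac univ g) i) := by
  obtain ⟨m, hm⟩ := main d hd
  refine ⟨m, fun i ε hε => ?_, fun η hη => ?_⟩
  · obtain ⟨b, hb1, hb2⟩ := exists_between hε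
    have hpos := pdm_cut_pos i ε b hb1 hb2
    obtain ⟨c, hc⟩ : ∃ c, c = pdm (fun u : Fin (i + 1) → ℝ => cut ε b (u (Fin.last i))) := ⟨_, rfl⟩
    rw [← hc] at hpos
    obtain ⟨L₀, hL₀⟩ := hm (i + 1) (fun u => cut ε b (u (Fin.last i)))
      ((cut_cont ε b).comp (continuous_apply _))
      ⟨1, fun u => by rw [abs_of_nonneg (cut_nonneg _ _ _)]; exact cut_le _ _ _⟩ (c / 2)
      (by positivity)
    refine ⟨c / 2, by positivity, L₀ + 3, fun L _ hL t ht => ?_⟩
    have h1 := hL₀ L (by omega) t ht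
    have ht0 : 0 ≤ t := (pow_nonneg (Real.log_natCast_nonneg L) m).trans ht
    rw [← hc] at h1
    have h2 := (abs_le.1 h1).1
    have h3 : stirExp (nnRate d L) t (fun g => cut ε b (top (bfrac univ g) (Fin.last i))) ≤
        stirExp (nnRate d L) t (fun g => if ε ≤ top (bfrac univ g) i then 1 else 0) := by
      refine Pool.Agent.Y998.ST.exp_mono Pool.Agent.Y998.ST.nn_nonneg ht0 fun g => ?_
      rw [Fin.val_last]
      split_ifs with h
      · exact cut_le _ _ _
      · rw [not_le] at h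
        rw [cut_lt hb1 h]
    linarith
  · obtain ⟨k, hk⟩ := exists_pow_lt_of_lt_one (show (0 : ℝ) < η / 2 by positivity)
      (show (1 / 2 : ℝ) < 1 by norm_num)
    obtain ⟨L₀, hL₀⟩ := hm k (fun u : Fin k → ℝ => ∑ i, min (max (1 * u i) 0) 1) (by fun_prop)
      ⟨k, fun u => by
        rw [abs_of_nonneg (Finset.sum_nonneg fun i _ => le_min (le_max_right _ _) zero_le_one)]
        refine (Finset.sum_le_sum fun i _ => min_le_right _ _).trans ?_
        simp⟩ (η / 2) (by positivity)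
    refine ⟨k, L₀, fun L _ hL t ht => ?_⟩
    have h1 := hL₀ L hL t ht
    rw [Pool.Agent.TH268.PD.pd_sum k 1 zero_le_one le_rfl, one_mul] at h1
    have h2 := Pool.Agent.TH268.PD.Lim.S_lower k
    have h3 := (abs_le.1 h1).1
    have h4 : stirExp (nnRate d L) t
        (fun g => ∑ i : Fin k, min (max (1 * top (bfrac univ g) i) 0) 1) =
        ∑ i ∈ Finset.range k, stirExp (nnRate d L) t (fun g => top (bfrac univ g) i) := by
      rw [Pool.Agent.Y998.ST.exp_sum]
      congr 1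
      funext g
      rw [← Fin.sum_univ_eq_sum_range (fun i => top (bfrac univ g) i)]
      refine Finset.sum_congr rfl fun i _ => ?_
      rw [one_mul, max_eq_left (Pool.Agent.TH268.PD.top_nonneg _ (fun γ => bfrac_nonneg _ _ γ) i),
        min_eq_left (Pool.Agent.TH268.PD.top_le_one _ (fun γ => bfrac_nonneg _ _ γ)
          (fun γ => bfrac_le_one _ _ γ) i)]
    rw [h4] at h3
    linarith

end Pool.Agent.K9h51.LC
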