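import Pool.Agent.K9h51.LC.Lam
import Pool.Agent.Q297.LC.Tlc
import Pool.Agent.Q292.LC.FinT

/-!
# Project LC: boxes of side `√K / h` see the same fractions as the torus (DEV)
-/

set_option autoImplicit false

namespace Pool.Agent.K9h51.LC

open Finset Equiv Matrix Q292.LC

/-- choice of `Z` -/
theorem par_pow (C₂ c : ℝ) (A : ℕ) (hC₂ : 1 ≤ C₂) (hc : 1 ≤ c) : ∃ L₀ : ℕ, ∀ L K : ℕ, L₀ ≤ L →
    (Real.log L) ^ (8 * A + 1) ≤ K → 1 ≤ Real.log L ∧ c ≤ Real.log L ∧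
      (c * ((⌈C₂ * Real.log L⌉₊ : ℕ) : ℝ) ^ A) ^ 8 ≤ K := by
  obtain ⟨B, hB⟩ : ∃ B : ℝ, B = c ^ 8 * (2 * C₂) ^ (8 * A) := ⟨_, rfl⟩
  have hcB : c ≤ B := by
    rw [hB]
    have h1 : c ≤ c ^ 8 := le_self_pow₀ hc (by norm_num)
    have h2 : (1 : ℝ) ≤ (2 * C₂) ^ (8 * A) := one_le_pow₀ (by linarith)
    nlinarith
  refine ⟨⌈Real.exp B⌉₊, fun L K hL hK => ?_⟩
  have h1 : Real.exp B ≤ L := (Nat.le_ceil _).trans (by exact_mod_cast hL)
  have h2 : B ≤ Real.log L := by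
    have := Real.log_le_log (Real.exp_pos B) h1
    rwa [Real.log_exp] at this
  have h3 : 1 ≤ Real.log L := by linarith
  refine ⟨h3, by linarith, ?_⟩
  have h4 : ((⌈C₂ * Real.log L⌉₊ : ℕ) : ℝ) ≤ 2 * C₂ * Real.log L := by
    have h5 := (Nat.ceil_lt_add_one (by positivity : 0 ≤ C₂ * Real.log L)).le
    have h6 : 1 ≤ C₂ * Real.log L := by nlinarith
    linarith
  refine le_trans ?_ hK
  calc (c * ((⌈C₂ * Real.log L⌉₊ : ℕ) : ℝ) ^ A) ^ 8
      ≤ (c * (2 * C₂ * Real.log L) ^ A) ^ 8 := by gcongr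
    _ = c ^ 8 * (2 * C₂) ^ (8 * A) * (Real.log L) ^ (8 * A) := by
        rw [mul_pow, ← pow_mul, mul_pow, mul_comm A 8]
        ring
    _ ≤ Real.log L * (Real.log L) ^ (8 * A) := by
        rw [← hB]
        exact mul_le_mul_of_nonneg_right h2 (by positivity)
    _ = (Real.log L) ^ (8 * A + 1) := by ring

theorem phz_zero {d L : ℕ} [NeZero L] (e : ℕ → (Fin d → ZMod L) × (Fin d → ZMod L)) (ω : ℕ → Bool)
    (A : Finset (Fin d → ZMod L)) (δ ε : ℝ) (n r : ℕ) (z a : Fin d → ZMod L) (ha : a ∈ A) :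
    phz r (Dmg e ω A δ ε n) z a = 0 := by
  have h1 : a ∈ Dmg e ω A δ ε n := by
    unfold Dmg
    rw [Finset.mem_filter]
    exact ⟨Finset.mem_univ _, Or.inl ha⟩
  have h2 : ∀ z', chi r (Dmg e ω A δ ε n) z' a = 0 := by
    intro z'
    unfold chi
    rw [if_neg]
    simp [h1]
  unfold phz
  simp only [h2, Finset.sum_const_zero, zero_div, sub_zero]

theorem Qb_le {d L : ℕ} [NeZero L] {r : ℕ} (hr : 1 ≤ r) (hrL : r ≤ L)
    (g : Perm (Fin d → ZMod L)) : Qb r g - Qv g ≤ 1 := by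
  have hL : (0 : ℝ) < (L : ℝ) ^ d := pow_pos Lpos _
  have h1 : Qb r g ≤ 1 := by
    rw [Qb_eq, div_le_one hL]
    calc ∑ z, qf g univ (al r z) ≤ ∑ _z : Fin d → ZMod L, (1 : ℝ) := by
          refine Finset.sum_le_sum fun z _ => ?_
          have := qf_l1 g univ (fun _ _ _ => by simp) (al r z) 1 (by
            simp only [abs_of_nonneg (al_nonneg r z _)]
            exact (al_sum hr hrL z).le)
          simpa using this
      _ = (L : ℝ) ^ d := by
          rw [Finset.sum_const, Finset.card_univ, nsmul_eq_mul, card_V, mul_one]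
  have h2 : 0 ≤ Qv g := by
    rw [Qv_eq]
    exact qf_nonneg _ _ _
  linarith

open Classical in
/-- the expectation of `Qb - Qv` in terms of the failure probability and the resolvent bound -/
theorem dev_split {d L : ℕ} [NeZero L] (hd : 1 ≤ d)
    (e : ℕ → (Fin d → ZMod L) × (Fin d → ZMod L)) (n : ℕ) (δ w ε Λ η κ f : ℝ) (r : ℕ)
    (B : (ℕ → Bool) → Finset (Fin d → ZMod L) → Prop) (h0 : 0 ≤ δ) (h1 : δ ≤ 1) (hw : 0 ≤ w)
    (hw1 : w < 1) (hΛ : 0 ≤ Λ) (hη0 : 0 ≤ η) (hη : η ≤ 1 / 2) (hr : 1 ≤ r) (hrL : r ≤ L)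
    (hBm : ∀ A, Rmeas e n A (fun ω => B ω A))
    (hD : ∀ ω A, B ω A → ∀ v, (((Dmg e ω A δ ε n) ∩ box v r).card : ℝ) ≤ η * (r : ℝ) ^ d)
    (hres : ∀ ω A, B ω A → ∀ z, phz r (Dmg e ω A δ ε n) z ⬝ᵥ
      ((1 - w • (dg (univ \ A) * TT e ω A δ n))⁻¹ *ᵥ phz r (Dmg e ω A δ ε n) z) ≤ Λ)
    (hf : PW e n δ w (fun ω A => ¬ B ω A) ≤ f)
    (hκ : ∀ x, PW e n δ w (fun ω A => x ∈ A ∧ B ω A) ≤ κ) :
    EE n δ (fun ω => Qb r (gp e ω n) - Qv (gp e ω n)) ≤
      3 * ((L : ℝ) ^ d * ((1 - w) * Λ)) + 24 * η ^ 2 + 2 * κ + f := by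
  have hL : (0 : ℝ) < (L : ℝ) ^ d := pow_pos Lpos _
  obtain ⟨p1, p2, p3, p4, p5, -⟩ := Pool.Agent.Q277.LC.peb (Fin d → ZMod L) e n δ w h0 h1 hw hw1
  obtain ⟨S, hS⟩ : ∃ S : (Fin d → ZMod L) → (ℕ → Bool) → Finset (Fin d → ZMod L) → ℝ,
    S = fun z ω A => if B ω A then ∑ x ∈ univ \ A,
      ((∑ y ∈ cyc (gp e ω n) x, phz r (Dmg e ω A δ ε n) z y) /
        ((cyc (gp e ω n) x).card : ℝ)) ^ 2 else 0 := ⟨_, rfl⟩
  have hSb : ∀ z, PE e n δ w (S z) ≤ (1 - w) * Λ := by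
    intro z
    have h2 := res (Fin d → ZMod L) e n δ w Λ B
      (fun ω A => phz r (Dmg e ω A δ ε n) z) h0 h1 hw hw1 hΛ hBm
      (fun A ω ω' hag => by
        have h3 := Pool.Agent.Q277.LC.dme (Fin d → ZMod L) e n A δ ε ω ω' hag
        beta_reduce at h3 ⊢
        rw [h3])
      (fun ω A a ha => phz_zero e ω A δ ε n r z a ha)
      (fun ω A _ hb => hres ω A hb z)
    rw [hS]
    convert h2 using 2
  have hsum : ∀ (s : Finset (Fin d → ZMod L)) (F : (Fin d → ZMod L) → (ℕ → Bool) →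
      Finset (Fin d → ZMod L) → ℝ), PE e n δ w (fun ω A => ∑ z ∈ s, F z ω A) =
        ∑ z ∈ s, PE e n δ w (F z) := by
    intro s F
    induction s using Finset.induction_on with
    | empty =>
      simp only [Finset.sum_empty]
      have := p3 0 (fun _ _ => 0)
      simpa using this
    | insert a s ha ih =>
      simp only [Finset.sum_insert ha]
      rw [p2 (F a) (fun ω A => ∑ z ∈ s, F z ω A), ih]
  obtain ⟨c₀, hc₀⟩ : ∃ c₀ : ℝ, c₀ = 24 * η ^ 2 := ⟨_, rfl⟩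
  rw [← hc₀]
  have hc₀0 : 0 ≤ c₀ := by rw [hc₀]; positivity
  have hmain : EE n δ (fun ω => Qb r (gp e ω n) - Qv (gp e ω n)) ≤
      PE e n δ w (fun ω A => 3 * ∑ z, S z ω A + (c₀ + (2 / (L : ℝ) ^ d *
        ∑ x, (if x ∈ A ∧ B ω A then 1 else 0) + if ¬ B ω A then 1 else 0))) := by
    rw [← p1]
    refine p4 _ _ fun ω A hi => ?_
    by_cases hb : B ω A
    · have h2 := dva d L hd (gp e ω n) A (Dmg e ω A δ ε n) r η hr hrL hi (by
        intro a ha
        unfold Dmg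
        rw [Finset.mem_filter]
        exact ⟨Finset.mem_univ _, Or.inl ha⟩) hη0 hη (hD ω A hb)
      have h3 : ∑ z, S z ω A = ∑ z, ∑ x ∈ univ \ A,
          ((∑ y ∈ cyc (gp e ω n) x, phz r (Dmg e ω A δ ε n) z y) /
            ((cyc (gp e ω n) x).card : ℝ)) ^ 2 := by
        rw [hS]
        simp only [if_pos hb]
      have h4 : ∑ x : Fin d → ZMod L, (if x ∈ A ∧ B ω A then (1 : ℝ) else 0) = A.card := by
        simp only [hb, and_true]
        rw [← Finset.sum_filter, Finset.filter_mem_eq_inter, Finset.univ_inter, Finset.sum_const,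
          nsmul_eq_mul, mul_one]
      rw [h3, h4, if_neg (not_not.2 hb)]
      have h5 : 2 / (L : ℝ) ^ d * (A.card : ℝ) = 2 * A.card / (L : ℝ) ^ d := by ring
      rw [h5]
      linarith
    · have h3 : ∑ z, S z ω A = 0 := by
        rw [hS]
        simp only [if_neg hb, Finset.sum_const_zero]
      have h4 : ∑ x : Fin d → ZMod L, (if x ∈ A ∧ B ω A then (1 : ℝ) else 0) = 0 := by
        simp only [hb, and_false, if_false, Finset.sum_const_zero]
      rw [h3, h4, if_pos hb]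
      have h5 := Qb_le hr hrL (gp e ω n)
      linarith
  refine hmain.trans ?_
  have h2 : PE e n δ w (fun _ _ => c₀) = c₀ := by
    rw [p1 (fun _ => c₀), Pool.Agent.Q68.LC.EE_const]
  rw [p2, p3, p2, p2, p3, hsum, h2]
  have h3 : PE e n δ w (fun ω A => ∑ x, (if x ∈ A ∧ B ω A then (1 : ℝ) else 0)) ≤ (L : ℝ) ^ d * κ := by
    rw [hsum univ (fun x ω A => if x ∈ A ∧ B ω A then (1 : ℝ) else 0)]
    calc ∑ x, PE e n δ w (fun ω A => if x ∈ A ∧ B ω A then (1 : ℝ) else 0) ≤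
          ∑ _x : Fin d → ZMod L, κ := by
          refine Finset.sum_le_sum fun x _ => ?_
          refine le_trans (le_of_eq ?_) (hκ x)
          rw [← p5 (fun ω A => x ∈ A ∧ B ω A)]
          refine congrArg _ (funext fun ω => funext fun A => ?_)
          by_cases hc : x ∈ A ∧ B ω A
          · rw [if_pos hc, if_pos hc]
          · rw [if_neg hc, if_neg hc]
      _ = (L : ℝ) ^ d * κ := by
          rw [Finset.sum_const, Finset.card_univ, nsmul_eq_mul, card_V]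
  have h4 : ∑ z, PE e n δ w (S z) ≤ (L : ℝ) ^ d * ((1 - w) * Λ) := by
    calc ∑ z, PE e n δ w (S z) ≤ ∑ _z : Fin d → ZMod L, (1 - w) * Λ :=
          Finset.sum_le_sum fun z _ => hSb z
      _ = _ := by rw [Finset.sum_const, Finset.card_univ, nsmul_eq_mul, card_V]
  have h5 : PE e n δ w (fun ω A => if ¬ B ω A then (1 : ℝ) else 0) ≤ f := by
    refine le_trans (le_of_eq ?_) hf
    rw [← p5 (fun ω A => ¬ B ω A)]
    refine congrArg _ (funext fun ω => funext fun A => ?_)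
    by_cases hc : ¬ B ω A
    · rw [if_pos hc, if_pos hc]
    · rw [if_neg hc, if_neg hc]
  have h6 : 2 / (L : ℝ) ^ d * PE e n δ w (fun ω A => ∑ x, (if x ∈ A ∧ B ω A then (1 : ℝ) else 0)) ≤
      2 * κ := by
    calc _ ≤ 2 / (L : ℝ) ^ d * ((L : ℝ) ^ d * κ) := mul_le_mul_of_nonneg_left h3 (by positivity)
      _ = _ := by field_simp
  linarith

end Pool.Agent.K9h51.LC
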