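import Pool.Agent.K9h51.LC.Res
import Pool.Agent.Q187.LC.Nas

/-!
# Project LC: boxes and the torus (DVA)
-/

set_option autoImplicit false

namespace Pool.Agent.K9h51.LC

open Finset Equiv Matrix Q292.LC

section gen

variable {V : Type} [Fintype V] [DecidableEq V]

/-- The sum over the cycles `C` of `g` in the invariant set `S` of `(∑_C β)²`. -/
noncomputable def qf (g : Perm V) (S : Finset V) (β : V → ℝ) : ℝ :=
  ∑ x ∈ S, (∑ y ∈ cyc g x, β y) ^ 2 / ((cyc g x).card : ℝ)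

/-- closed under `SameCycle` -/
def CS (g : Perm V) (S : Finset V) : Prop := ∀ x y, g.SameCycle x y → (x ∈ S ↔ y ∈ S)

theorem qf_nonneg (g : Perm V) (S : Finset V) (β : V → ℝ) : 0 ≤ qf g S β :=
  Finset.sum_nonneg fun _ _ => div_nonneg (sq_nonneg _) (Nat.cast_nonneg _)

theorem qf_eq (g : Perm V) (S : Finset V) (hS : CS g S) (β : V → ℝ) :
    qf g S β = ∑ x ∈ S, β x * ∑ y ∈ cyc g x, β y := by
  rw [← sum_avg g S hS (fun x => β x * ∑ y ∈ cyc g x, β y)]
  unfold qf
  refine Finset.sum_congr rfl fun x _ => ?_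
  congr 1
  have h1 : ∀ y ∈ cyc g x, β y * ∑ z ∈ cyc g y, β z = β y * ∑ z ∈ cyc g x, β z := by
    intro y hy
    rw [cyc_eq g x y ((mem_cyc g x y).1 hy)]
  rw [Finset.sum_congr rfl h1, ← Finset.sum_mul, sq]

open Classical in
theorem qf_eq2 (g : Perm V) (β : V → ℝ) :
    qf g univ β = ∑ x, ∑ y, if g.SameCycle x y then β x * β y else 0 := by
  rw [qf_eq g univ (fun _ _ _ => by simp)]
  refine Finset.sum_congr rfl fun x _ => ?_
  rw [Finset.mul_sum, ← Finset.sum_filter]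
  refine Finset.sum_congr ?_ fun _ _ => rfl
  ext y
  rw [mem_cyc]
  simp

theorem qf_split (g : Perm V) (A : Finset V) (β : V → ℝ) :
    qf g univ β = qf g A β + qf g (univ \ A) β := by
  unfold qf
  rw [add_comm, Finset.sum_sdiff (Finset.subset_univ A)]

theorem qf_three (g : Perm V) (S : Finset V) (a b c : V → ℝ) :
    qf g S (fun x => a x + b x + c x) ≤ 3 * qf g S a + 3 * qf g S b + 3 * qf g S c := by
  unfold qf
  rw [Finset.mul_sum, Finset.mul_sum, Finset.mul_sum, ← Finset.sum_add_distrib,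
    ← Finset.sum_add_distrib]
  refine Finset.sum_le_sum fun x _ => ?_
  rw [Finset.sum_add_distrib, Finset.sum_add_distrib]
  have hc : (0 : ℝ) ≤ 1 / ((cyc g x).card : ℝ) := by positivity
  obtain ⟨A, hA⟩ : ∃ A, A = ∑ y ∈ cyc g x, a y := ⟨_, rfl⟩
  obtain ⟨B, hB⟩ : ∃ B, B = ∑ y ∈ cyc g x, b y := ⟨_, rfl⟩
  obtain ⟨C, hC⟩ : ∃ C, C = ∑ y ∈ cyc g x, c y := ⟨_, rfl⟩
  rw [← hA, ← hB, ← hC]
  have h1 : (A + B + C) ^ 2 ≤ 3 * A ^ 2 + 3 * B ^ 2 + 3 * C ^ 2 := by
    nlinarith [sq_nonneg (A - B), sq_nonneg (B - C), sq_nonneg (A - C)]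
  calc (A + B + C) ^ 2 / ((cyc g x).card : ℝ) = (A + B + C) ^ 2 * (1 / ((cyc g x).card : ℝ)) := by ring
    _ ≤ (3 * A ^ 2 + 3 * B ^ 2 + 3 * C ^ 2) * (1 / ((cyc g x).card : ℝ)) :=
        mul_le_mul_of_nonneg_right h1 hc
    _ = _ := by ring

/-- the `ℓ¹` norm bounds the form -/
theorem qf_l1 (g : Perm V) (S : Finset V) (hS : CS g S) (β : V → ℝ) (M : ℝ)
    (h : ∑ x, |β x| ≤ M) : qf g S β ≤ M ^ 2 := by
  rw [qf_eq g S hS]
  have hM : 0 ≤ M := (Finset.sum_nonneg fun x _ => abs_nonneg (β x)).trans h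
  calc ∑ x ∈ S, β x * ∑ y ∈ cyc g x, β y ≤ ∑ x ∈ S, |β x| * M := by
        refine Finset.sum_le_sum fun x _ => ?_
        refine (le_abs_self _).trans ?_
        rw [abs_mul]
        refine mul_le_mul_of_nonneg_left ?_ (abs_nonneg _)
        refine (Finset.abs_sum_le_sum_abs _ _).trans (le_trans ?_ h)
        exact Finset.sum_le_sum_of_subset_of_nonneg (Finset.subset_univ _)
          fun _ _ _ => abs_nonneg _
    _ = (∑ x ∈ S, |β x|) * M := by rw [Finset.sum_mul]
    _ ≤ M * M := by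
        refine mul_le_mul_of_nonneg_right (le_trans ?_ h) hM
        exact Finset.sum_le_sum_of_subset_of_nonneg (Finset.subset_univ _)
          fun _ _ _ => abs_nonneg _
    _ = M ^ 2 := by ring

/-- differences of two nonnegative functions of total mass at most one -/
theorem qf_diff (g : Perm V) (S : Finset V) (hS : CS g S) (α u : V → ℝ)
    (hα : ∀ x, 0 ≤ α x) (hu : ∀ x, 0 ≤ u x) (hα1 : ∑ x, α x ≤ 1) (hu1 : ∑ x, u x ≤ 1) :
    qf g S (fun x => α x - u x) ≤ ∑ x ∈ S, α x + ∑ x ∈ S, u x := by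
  rw [qf_eq g S hS, ← Finset.sum_add_distrib]
  have hc1 : ∀ x, ∑ y ∈ cyc g x, α y ≤ 1 := fun x =>
    (Finset.sum_le_sum_of_subset_of_nonneg (Finset.subset_univ _) fun _ _ _ => hα _).trans hα1
  have hc2 : ∀ x, ∑ y ∈ cyc g x, u y ≤ 1 := fun x =>
    (Finset.sum_le_sum_of_subset_of_nonneg (Finset.subset_univ _) fun _ _ _ => hu _).trans hu1
  refine Finset.sum_le_sum fun x _ => ?_
  rw [Finset.sum_sub_distrib]
  have h1 : 0 ≤ ∑ y ∈ cyc g x, α y := Finset.sum_nonneg fun _ _ => hα _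
  have h2 : 0 ≤ ∑ y ∈ cyc g x, u y := Finset.sum_nonneg fun _ _ => hu _
  nlinarith [hα x, hu x, hc1 x, hc2 x, mul_nonneg (hα x) h2, mul_nonneg (hu x) h1,
    mul_le_mul_of_nonneg_left (hc1 x) (hα x), mul_le_mul_of_nonneg_left (hc2 x) (hu x)]

/-- variance identity -/
theorem qf_var {ι : Type} [Fintype ι] (g : Perm V) (S : Finset V) (α : ι → V → ℝ) (u : V → ℝ)
    (N : ℝ) (hN : N = Fintype.card ι) (h : ∀ x, ∑ i, α i x = N * u x) :
    ∑ i, qf g S (fun x => α i x - u x) = ∑ i, qf g S (α i) - N * qf g S u := by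
  unfold qf
  rw [Finset.sum_comm, Finset.sum_comm (f := fun i x => (∑ y ∈ cyc g x, α i y) ^ 2 / _),
    Finset.mul_sum, ← Finset.sum_sub_distrib]
  refine Finset.sum_congr rfl fun x _ => ?_
  have h1 : ∑ i, ∑ y ∈ cyc g x, α i y = N * ∑ y ∈ cyc g x, u y := by
    rw [Finset.sum_comm, Finset.mul_sum]
    exact Finset.sum_congr rfl fun y _ => h y
  obtain ⟨U, hU⟩ : ∃ U, U = ∑ y ∈ cyc g x, u y := ⟨_, rfl⟩
  rw [← hU] at h1
  have h2 : ∀ i, (∑ y ∈ cyc g x, (α i y - u y)) ^ 2 / ((cyc g x).card : ℝ) =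
      (∑ y ∈ cyc g x, α i y) ^ 2 / ((cyc g x).card : ℝ) -
        2 * U / ((cyc g x).card : ℝ) * (∑ y ∈ cyc g x, α i y) + U ^ 2 / ((cyc g x).card : ℝ) := by
    intro i
    rw [Finset.sum_sub_distrib, ← hU]
    ring
  rw [Finset.sum_congr rfl fun i _ => h2 i, Finset.sum_add_distrib, Finset.sum_sub_distrib,
    ← Finset.mul_sum, h1, Finset.sum_const, Finset.card_univ, nsmul_eq_mul, ← hN, ← hU]
  ring

end gen

section torus

variable {d L : ℕ} [NeZero L]

/-- uniform distribution on a box -/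
noncomputable def al (r : ℕ) (z x : Fin d → ZMod L) : ℝ :=
  if x ∈ box z r then 1 / (r : ℝ) ^ d else 0

theorem al_nonneg (r : ℕ) (z x : Fin d → ZMod L) : 0 ≤ al r z x := by
  unfold al
  split_ifs <;> positivity

theorem al_sum {r : ℕ} (hr : 1 ≤ r) (hrL : r ≤ L) (z : Fin d → ZMod L) : ∑ x, al r z x = 1 := by
  unfold al
  rw [← Finset.sum_filter, Finset.filter_mem_eq_inter, Finset.univ_inter, Finset.sum_const,
    Pool.Agent.Q187.LC.Nas.card_box z r hrL, nsmul_eq_mul]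
  have : (r : ℝ) ≠ 0 := by exact_mod_cast (by omega : r ≠ 0)
  push_cast
  field_simp

theorem al_cover {r : ℕ} (hr : 1 ≤ r) (hrL : r ≤ L) (x : Fin d → ZMod L) :
    ∑ z, al r z x = 1 := by
  unfold al
  rw [← Finset.sum_filter, Finset.sum_const,
    Pool.Agent.Q187.LC.Nas.card_cover x r hrL, nsmul_eq_mul]
  have : (r : ℝ) ≠ 0 := by exact_mod_cast (by omega : r ≠ 0)
  push_cast
  field_simp

theorem card_V : (Fintype.card (Fin d → ZMod L) : ℝ) = (L : ℝ) ^ d := by
  rw [Fintype.card_fun, ZMod.card, Fintype.card_fin]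
  push_cast
  rfl

theorem Lpos : (0 : ℝ) < (L : ℝ) := by
  have := Nat.pos_of_ne_zero (NeZero.ne L)
  exact_mod_cast this

/-- the box probability in terms of the forms -/
theorem Qb_eq (r : ℕ) (g : Perm (Fin d → ZMod L)) :
    Qb r g = (∑ z, qf g univ (al r z)) / (L : ℝ) ^ d := by
  classical
  unfold Qb
  have h1 : ∀ z : Fin d → ZMod L, qf g univ (al r z) =
      (∑ x ∈ box z r, ∑ y ∈ box z r, if g.SameCycle x y then (1 : ℝ) else 0) *
        (1 / (r : ℝ) ^ (2 * d)) := by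
    intro z
    rw [qf_eq2]
    unfold al
    have e1 : ∀ x y : Fin d → ZMod L, (if g.SameCycle x y then
        (if x ∈ box z r then 1 / (r : ℝ) ^ d else 0) * (if y ∈ box z r then 1 / (r : ℝ) ^ d else 0)
        else 0) = if x ∈ box z r then (if y ∈ box z r then
          (if g.SameCycle x y then (1 : ℝ) else 0) * (1 / (r : ℝ) ^ (2 * d)) else 0) else 0 := by
      intro x y
      have : (1 : ℝ) / (r : ℝ) ^ (2 * d) = 1 / (r : ℝ) ^ d * (1 / (r : ℝ) ^ d) := by
        rw [two_mul, pow_add]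
        ring
      rw [this]
      split_ifs <;> simp
    simp only [e1]
    rw [Finset.sum_mul]
    have e2 : ∀ x : Fin d → ZMod L, (∑ y : Fin d → ZMod L, if x ∈ box z r then (if y ∈ box z r then
          (if g.SameCycle x y then (1 : ℝ) else 0) * (1 / (r : ℝ) ^ (2 * d)) else 0) else 0) =
        if x ∈ box z r then (∑ y ∈ box z r, if g.SameCycle x y then (1 : ℝ) else 0) *
          (1 / (r : ℝ) ^ (2 * d)) else 0 := by
      intro x
      by_cases hx : x ∈ box z r
      · simp only [if_pos hx]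
        rw [Finset.sum_mul, ← Finset.sum_filter, Finset.filter_mem_eq_inter, Finset.univ_inter]
      · simp only [if_neg hx, Finset.sum_const_zero]
    simp only [e2]
    rw [← Finset.sum_filter, Finset.filter_mem_eq_inter, Finset.univ_inter]
  rw [Finset.sum_congr rfl fun z _ => h1 z, ← Finset.sum_mul]
  have h2 : ∀ X : ℝ, X / ((L : ℝ) ^ d * (r : ℝ) ^ (2 * d)) = X * (1 / (r : ℝ) ^ (2 * d)) / (L : ℝ) ^ d := by
    intro X
    rw [mul_one_div, div_div, mul_comm ((L : ℝ) ^ d)]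
  exact h2 _

theorem Qv_eq (g : Perm (Fin d → ZMod L)) :
    Qv g = qf g univ (fun _ => 1 / (L : ℝ) ^ d) := by
  classical
  rw [qf_eq2]
  unfold Qv
  rw [Finset.sum_div]
  refine Finset.sum_congr rfl fun x _ => ?_
  rw [Finset.sum_div]
  refine Finset.sum_congr rfl fun y _ => ?_
  rw [two_mul, pow_add]
  split_ifs
  · ring
  · simp

/-- `Qb - Qv` is the mean square distance of the box fractions and the torus fractions -/
theorem Qb_sub_Qv {r : ℕ} (hr : 1 ≤ r) (hrL : r ≤ L) (g : Perm (Fin d → ZMod L)) :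
    Qb r g - Qv g = (∑ z, qf g univ (fun x => al r z x - 1 / (L : ℝ) ^ d)) / (L : ℝ) ^ d := by
  have hL : (0 : ℝ) < (L : ℝ) ^ d := pow_pos Lpos _
  rw [qf_var g univ (al r) (fun _ => 1 / (L : ℝ) ^ d) ((L : ℝ) ^ d) card_V.symm (fun x => by
    rw [al_cover hr hrL]
    field_simp), Qb_eq, Qv_eq]
  field_simp

/-- the error of the uniform distribution off `Dm` -/
noncomputable def bb (r : ℕ) (Dm : Finset (Fin d → ZMod L)) (z x : Fin d → ZMod L) : ℝ :=
  al r z x - chi r Dm z x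

theorem bb_l1 {r : ℕ} (hr : 1 ≤ r) (hrL : r ≤ L) (Dm : Finset (Fin d → ZMod L)) (η : ℝ)
    (hη : η ≤ 1 / 2) (z : Fin d → ZMod L) (hD : ((Dm ∩ box z r).card : ℝ) ≤ η * (r : ℝ) ^ d) :
    ∑ x, |bb r Dm z x| ≤ 2 * η := by
  have hr0 : (0 : ℝ) < (r : ℝ) ^ d := by
    have : (0 : ℝ) < r := by exact_mod_cast hr
    positivity
  obtain ⟨n, hn⟩ : ∃ n : ℝ, n = ((box z r \ Dm).card : ℝ) := ⟨_, rfl⟩
  obtain ⟨k, hk⟩ : ∃ k : ℝ, k = ((Dm ∩ box z r).card : ℝ) := ⟨_, rfl⟩
  have hnk : n + k = (r : ℝ) ^ d := by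
    rw [hn, hk, Finset.inter_comm]
    have h1 := Finset.card_sdiff_add_card_inter (box z r) Dm
    rw [Pool.Agent.Q187.LC.Nas.card_box z r hrL] at h1
    exact_mod_cast h1
  rw [← hk] at hD
  have hk0 : 0 ≤ k := by rw [hk]; positivity
  have hn0 : 0 < n := by nlinarith
  have hb : ∀ x, |bb r Dm z x| = (if x ∈ box z r \ Dm then 1 / n - 1 / (r : ℝ) ^ d else 0) +
      (if x ∈ Dm ∩ box z r then 1 / (r : ℝ) ^ d else 0) := by
    intro x
    unfold bb al chi
    rw [← hn]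
    have h1 : 1 / (r : ℝ) ^ d ≤ 1 / n := one_div_le_one_div_of_le hn0 (by linarith)
    by_cases hx : x ∈ box z r
    · by_cases hxD : x ∈ Dm
      · have e1 : x ∉ box z r \ Dm := by simp [hxD]
        have e2 : x ∈ Dm ∩ box z r := by simp [hx, hxD]
        rw [if_pos hx, if_neg e1, if_neg e1, if_pos e2, sub_zero, zero_add]
        exact abs_of_nonneg (by positivity)
      · have e1 : x ∈ box z r \ Dm := by simp [hx, hxD]
        have e2 : x ∉ Dm ∩ box z r := by simp [hxD]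
        rw [if_pos hx, if_pos e1, if_pos e1, if_neg e2, add_zero, abs_sub_comm]
        exact abs_of_nonneg (by linarith)
    · have e1 : x ∉ box z r \ Dm := by simp [hx]
      have e2 : x ∉ Dm ∩ box z r := by simp [hx]
      rw [if_neg hx, if_neg e1, if_neg e1, if_neg e2]
      simp
  rw [Finset.sum_congr rfl fun x _ => hb x, Finset.sum_add_distrib, ← Finset.sum_filter,
    ← Finset.sum_filter, Finset.filter_mem_eq_inter, Finset.filter_mem_eq_inter,
    Finset.univ_inter, Finset.univ_inter, Finset.sum_const, Finset.sum_const, nsmul_eq_mul,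
    nsmul_eq_mul, ← hn, ← hk]
  have h2 : n * (1 / n - 1 / (r : ℝ) ^ d) + k * (1 / (r : ℝ) ^ d) = 2 * (k / (r : ℝ) ^ d) := by
    have : n = (r : ℝ) ^ d - k := by linarith
    field_simp
    rw [this]
    ring
  rw [h2]
  have h3 : k / (r : ℝ) ^ d ≤ η := by
    rw [div_le_iff₀ hr0]
    exact hD
  linarith

theorem dva : S_DVA := by
  intro d L _ hd g A Dm r η hr hrL hA hAD hη0 hη hD
  have hL : (0 : ℝ) < (L : ℝ) ^ d := pow_pos Lpos _
  have hAC : CS g A := fun x y h => ⟨fun h1 => Pool.Agent.Q153.LC.inv_same g A hA x y h1 h,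
      fun h1 => Pool.Agent.Q153.LC.inv_same g A hA y x h1 h.symm⟩
  have hUC : CS g (univ \ A) := fun x y h => by
    simp only [mem_sdiff, mem_univ, true_and]
    exact not_congr (hAC x y h)
  -- the mean of `bb`
  obtain ⟨mb, hmb⟩ : ∃ mb : (Fin d → ZMod L) → ℝ, mb = fun x =>
    (∑ z', bb r Dm z' x) / (L : ℝ) ^ d := ⟨_, rfl⟩
  have hdec : ∀ z x, al r z x - 1 / (L : ℝ) ^ d = phz r Dm z x + bb r Dm z x + -mb x := by
    intro z x
    rw [hmb]
    unfold phz
    beta_reduce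
    have e1 : ∑ z', bb r Dm z' x = 1 - ∑ z', chi r Dm z' x := by
      unfold bb
      rw [Finset.sum_sub_distrib, al_cover hr hrL]
    rw [e1]
    unfold bb
    ring
  have hmbl : ∑ x, |-mb x| ≤ 2 * η := by
    rw [hmb]
    simp only [abs_neg]
    calc ∑ x, |(∑ z', bb r Dm z' x) / (L : ℝ) ^ d|
        ≤ ∑ x, (∑ z', |bb r Dm z' x|) / (L : ℝ) ^ d := by
          refine Finset.sum_le_sum fun x _ => ?_
          rw [abs_div, abs_of_pos hL]
          exact div_le_div_of_nonneg_right (Finset.abs_sum_le_sum_abs _ _) hL.le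
      _ = (∑ z', ∑ x, |bb r Dm z' x|) / (L : ℝ) ^ d := by
          rw [← Finset.sum_div, Finset.sum_comm]
      _ ≤ (∑ _z' : Fin d → ZMod L, 2 * η) / (L : ℝ) ^ d := by
          refine div_le_div_of_nonneg_right (Finset.sum_le_sum fun z _ => ?_) hL.le
          exact bb_l1 hr hrL Dm η hη z (hD z)
      _ = 2 * η := by
          rw [Finset.sum_const, Finset.card_univ, nsmul_eq_mul, card_V]
          field_simp
  have hone : ∀ z, qf g univ (fun x => al r z x - 1 / (L : ℝ) ^ d) ≤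
      (∑ x ∈ A, al r z x + A.card / (L : ℝ) ^ d) +
      (3 * ((L : ℝ) ^ d * ∑ x ∈ univ \ A,
        ((∑ y ∈ cyc g x, phz r Dm z y) / ((cyc g x).card : ℝ)) ^ 2) + 24 * η ^ 2) := by
    intro z
    rw [qf_split g A]
    refine add_le_add ?_ ?_
    · refine (qf_diff g A hAC (al r z) (fun _ => 1 / (L : ℝ) ^ d) (al_nonneg r z)
        (fun _ => by positivity) (al_sum hr hrL z).le ?_).trans ?_
      · rw [Finset.sum_const, Finset.card_univ, nsmul_eq_mul, card_V]
        exact le_of_eq (by field_simp)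
      · rw [Finset.sum_const, nsmul_eq_mul]
        exact le_of_eq (by ring)
    · have h1 : qf g (univ \ A) (fun x => al r z x - 1 / (L : ℝ) ^ d) ≤
          3 * qf g (univ \ A) (phz r Dm z) + 3 * qf g (univ \ A) (bb r Dm z) +
            3 * qf g (univ \ A) (fun x => -mb x) := by
        have : (fun x => al r z x - 1 / (L : ℝ) ^ d) =
            fun x => phz r Dm z x + bb r Dm z x + (fun x => -mb x) x := by
          funext x
          exact hdec z x
        rw [this]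
        exact qf_three g _ _ _ _
      have h2 := qf_l1 g (univ \ A) hUC (bb r Dm z) (2 * η) (bb_l1 hr hrL Dm η hη z (hD z))
      have h3 := qf_l1 g (univ \ A) hUC (fun x => -mb x) (2 * η) hmbl
      have h4 : qf g (univ \ A) (phz r Dm z) ≤ (L : ℝ) ^ d * ∑ x ∈ univ \ A,
          ((∑ y ∈ cyc g x, phz r Dm z y) / ((cyc g x).card : ℝ)) ^ 2 := by
        unfold qf
        rw [Finset.mul_sum]
        refine Finset.sum_le_sum fun x _ => ?_
        have hc : (0 : ℝ) < ((cyc g x).card : ℝ) := by exact_mod_cast card_cyc_pos g x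
        have hc2 : ((cyc g x).card : ℝ) ≤ (L : ℝ) ^ d := by
          rw [← card_V (d := d) (L := L)]
          exact_mod_cast Finset.card_le_univ _
        have e1 : (∑ y ∈ cyc g x, phz r Dm z y) ^ 2 / ((cyc g x).card : ℝ) =
            ((cyc g x).card : ℝ) *
              ((∑ y ∈ cyc g x, phz r Dm z y) / ((cyc g x).card : ℝ)) ^ 2 := by
          field_simp
        rw [e1]
        exact mul_le_mul_of_nonneg_right hc2 (sq_nonneg _)
      nlinarith
  have hsum : ∑ z : Fin d → ZMod L, ∑ x ∈ A, al r z x = A.card := by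
    rw [Finset.sum_comm, Finset.sum_congr rfl fun x _ => al_cover hr hrL x, Finset.sum_const,
      nsmul_eq_mul, mul_one]
  have h5 : Qb r g - Qv g ≤ (∑ z : Fin d → ZMod L, ((∑ x ∈ A, al r z x + A.card / (L : ℝ) ^ d) +
      (3 * ((L : ℝ) ^ d * ∑ x ∈ univ \ A,
        ((∑ y ∈ cyc g x, phz r Dm z y) / ((cyc g x).card : ℝ)) ^ 2) + 24 * η ^ 2))) /
        (L : ℝ) ^ d := by
    rw [Qb_sub_Qv hr hrL]
    exact div_le_div_of_nonneg_right (Finset.sum_le_sum fun z _ => hone z) hL.le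
  rw [Finset.sum_add_distrib, Finset.sum_add_distrib, Finset.sum_add_distrib, hsum,
    Finset.sum_const, Finset.sum_const, Finset.card_univ, nsmul_eq_mul, nsmul_eq_mul, card_V,
    ← Finset.mul_sum, ← Finset.mul_sum] at h5
  have h6 : ((A.card : ℝ) + (L : ℝ) ^ d * (A.card / (L : ℝ) ^ d) +
      (3 * ((L : ℝ) ^ d * ∑ z : Fin d → ZMod L, ∑ x ∈ univ \ A,
        ((∑ y ∈ cyc g x, phz r Dm z y) / ((cyc g x).card : ℝ)) ^ 2) +
        (L : ℝ) ^ d * (24 * η ^ 2))) / (L : ℝ) ^ d =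
      3 * ∑ z : Fin d → ZMod L, ∑ x ∈ univ \ A,
        ((∑ y ∈ cyc g x, phz r Dm z y) / ((cyc g x).card : ℝ)) ^ 2 + 24 * η ^ 2 +
        2 * A.card / (L : ℝ) ^ d := by
    field_simp
    ring
  rw [h6] at h5
  linarith

end torus

end Pool.Agent.K9h51.LC
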