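import Pool.Agent.Q292.LC.Stm7
import Pool.Agent.Q53.LC.Poi
import Pool.Agent.Q257.LC.Geo

/-!
# Project LC: covering of a ball by small balls (CNT)
-/

set_option autoImplicit false

namespace Pool.Agent.K9h51.LC

open Finset Equiv Q292.LC

theorem cnt : S_CNT := by
  intro d L _ hd hL S r₁ R lam hr hS z
  obtain ⟨m, hm⟩ : ∃ m, m = r₁ / d := ⟨_, rfl⟩
  rw [← hm]
  have hm1 : 1 ≤ m := by
    rw [hm]
    exact (Nat.one_le_div_iff (by omega)).2 hr
  have hdm : d * m ≤ r₁ := by
    rw [hm]
    exact Nat.mul_div_le r₁ d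
  obtain ⟨Q, hQ⟩ : ∃ Q, Q = R / m := ⟨_, rfl⟩
  rw [← hQ]
  have hRQ : R < m * (Q + 1) := by
    rw [hQ]
    exact Nat.lt_mul_div_succ R (by omega)
  obtain ⟨c, hc⟩ : ∃ c : (Fin d → Fin (2 * Q + 3)) → Fin d → ZMod L,
    c = fun k i => z i + (((m : ℤ) * (((k i : ℕ) : ℤ) - Q - 1) : ℤ) : ZMod L) := ⟨_, rfl⟩
  have hsub : S ∩ bal z R ⊆ (univ : Finset (Fin d → Fin (2 * Q + 3))).biUnion
      fun k => S ∩ bal (c k) r₁ := by
    intro x hx
    rw [Finset.mem_inter] at hx
    have hxz := (Pool.Agent.Q257.LC.mem_bal z R x).1 hx.2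
    rw [Finset.mem_biUnion]
    obtain ⟨v, hv⟩ : ∃ v : Fin d → ℤ, v = fun i => (x i - z i).valMinAbs := ⟨_, rfl⟩
    have hvR : ∀ i, (v i).natAbs ≤ R := by
      intro i
      refine le_trans ?_ hxz
      rw [Pool.Agent.Q257.LC.td_comm]
      unfold td
      rw [hv]
      exact Finset.single_le_sum (f := fun i => (x i - z i).valMinAbs.natAbs)
        (fun _ _ => Nat.zero_le _) (Finset.mem_univ i)
    have hq : ∀ i, -(Q : ℤ) - 1 ≤ v i / m ∧ v i / m ≤ Q := by
      intro i
      have h1 := hvR i
      have h2 : (m : ℤ) * (v i / m) + v i % m = v i := Int.mul_ediv_add_emod _ _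
      have h3 : v i % m < m := Int.emod_lt_of_pos _ (by exact_mod_cast hm1)
      have h4 : 0 ≤ v i % m := Int.emod_nonneg _ (by omega)
      have h5 : (R : ℤ) < m * (Q + 1) := by exact_mod_cast hRQ
      have h6 : -(R : ℤ) ≤ v i ∧ v i ≤ R := by omega
      have hm0 : (0 : ℤ) < m := by exact_mod_cast hm1
      constructor
      · by_contra hcon
        push Not at hcon
        have h7 : v i / m ≤ -(Q : ℤ) - 2 := by omega
        have h8 : (m : ℤ) * (v i / m) ≤ m * (-(Q : ℤ) - 2) := mul_le_mul_of_nonneg_left h7 hm0.le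
        nlinarith [h6.1]
      · by_contra hcon
        push Not at hcon
        have h7 : (Q : ℤ) + 1 ≤ v i / m := by omega
        have h8 : (m : ℤ) * ((Q : ℤ) + 1) ≤ m * (v i / m) := mul_le_mul_of_nonneg_left h7 hm0.le
        linarith [h6.2]
    have hlt : ∀ i, (v i / m + Q + 1).toNat < 2 * Q + 3 := by
      intro i
      have := hq i
      omega
    refine ⟨fun i => ⟨(v i / m + Q + 1).toNat, hlt i⟩, Finset.mem_univ _, ?_⟩
    rw [Finset.mem_inter, Pool.Agent.Q257.LC.mem_bal]
    refine ⟨hx.1, ?_⟩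
    unfold td
    calc ∑ i, (c (fun i => ⟨(v i / m + Q + 1).toNat, hlt i⟩) i - x i).valMinAbs.natAbs
        ≤ ∑ _i : Fin d, m := by
          refine Finset.sum_le_sum fun i _ => ?_
          have h2 : (m : ℤ) * (v i / m) + v i % m = v i := Int.mul_ediv_add_emod _ _
          have h3 : v i % m < m := Int.emod_lt_of_pos _ (by exact_mod_cast hm1)
          have h4 : 0 ≤ v i % m := Int.emod_nonneg _ (by omega)
          have e1 : ((-(v i % m) : ℤ) : ZMod L) =
              c (fun i => ⟨(v i / m + Q + 1).toNat, hlt i⟩) i - x i := by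
            rw [hc]
            beta_reduce
            have e2 : (((v i / m + Q + 1).toNat : ℕ) : ℤ) = v i / m + Q + 1 :=
              Int.toNat_of_nonneg (by have := hq i; omega)
            simp only [e2]
            have e3 : (m : ℤ) * (v i / m + Q + 1 - Q - 1) = v i - v i % m := by
              have e5 : v i / m + Q + 1 - Q - 1 = v i / m := by ring
              rw [e5]
              linarith
            rw [e3]
            have e4 : ((v i : ℤ) : ZMod L) = x i - z i := by
              rw [hv]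
              exact ZMod.coe_valMinAbs _
            push_cast
            rw [e4]
            ring
          refine (Pool.Agent.Q53.LC.natAbs_le_of_cast _ _ e1).trans ?_
          omega
      _ = d * m := by rw [Finset.sum_const, Finset.card_univ, Fintype.card_fin, smul_eq_mul]
      _ ≤ r₁ := hdm
  refine (Finset.card_le_card hsub).trans (Finset.card_biUnion_le.trans ?_)
  refine (Finset.sum_le_sum fun k _ => hS (c k)).trans (le_of_eq ?_)
  rw [Finset.sum_const, Finset.card_univ, Fintype.card_fun, Fintype.card_fin, Fintype.card_fin,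
    smul_eq_mul, mul_comm]

end Pool.Agent.K9h51.LC
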