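import Pool.Agent.K9h51.LC.Dev
import Pool.Agent.Q154.LC.Gdm

/-!
# Project LC: boxes of side `√K / h` see the same fractions as the torus (DEV), parameters
-/

set_option autoImplicit false

namespace Pool.Agent.K9h51.LC

open Finset Equiv Matrix Q292.LC

theorem Gd_empty {d L : ℕ} [NeZero L] (σ : ℕ → (Fin d → ZMod L) × Fin d)
    (q K lam r ρ κ₀ : ℕ) (ω : ℕ → Bool) : Gd σ q K lam r ρ κ₀ ω ∅ := by
  refine ⟨?_, ?_, ?_⟩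
  · rintro ⟨j, -, v, h⟩
    simp at h
  · intro j _ a ha
    simp at ha
  · intro a ha
    simp at ha

theorem dev : S_DEV := by
  intro d hd
  obtain ⟨C₁, m₁, hC₁, hB⟩ := all_btl d hd
  obtain ⟨CA, ε, hCA, hε, hLam⟩ := lam d hd
  have hd3 : (3 : ℝ) ≤ d := by exact_mod_cast hd
  have hC₁r : (1 : ℝ) ≤ C₁ := by exact_mod_cast hC₁
  have hCAr : (1 : ℝ) ≤ CA := by exact_mod_cast hCA
  obtain ⟨A, hA⟩ : ∃ A, A = d * m₁ + d + 10 := ⟨_, rfl⟩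
  refine ⟨8 * A + 1, CA, fun h hh η hη => ?_⟩
  have hh1 : (1 : ℝ) ≤ h := hCAr.trans (by exact_mod_cast hh)
  obtain ⟨η', hη'⟩ : ∃ η' : ℝ, η' = min (1 / 2) (η / 200) := ⟨_, rfl⟩
  have hη'0 : 0 < η' := by rw [hη']; exact lt_min (by norm_num) (by positivity)
  have hη'1 : η' ≤ 1 / 2 := by rw [hη']; exact min_le_left _ _
  have hη'2 : η' ≤ η / 200 := by rw [hη']; exact min_le_right _ _
  have hη'3 : 24 * η' ^ 2 ≤ η / 8 := by nlinarith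
  obtain ⟨c, hc⟩ : ∃ c : ℝ, c = 18 * 3 ^ d * C₁ + (d : ℝ) ^ d + CA * (h : ℝ) ^ d / η' +
    24 * CA * (2 * (h : ℝ)) ^ (2 * d) / η + 32 * C₁ / η + 8 * (5 * C₁ + 1) / η + 8 := ⟨_, rfl⟩
  have k1 : 0 ≤ 18 * 3 ^ d * (C₁ : ℝ) := by positivity
  have k2 : 0 ≤ (d : ℝ) ^ d := by positivity
  have k3 : 0 ≤ CA * (h : ℝ) ^ d / η' := by positivity
  have k4 : 0 ≤ 24 * CA * (2 * (h : ℝ)) ^ (2 * d) / η := by positivity
  have k5 : 0 ≤ 32 * C₁ / η := by positivity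
  have k6 : 0 ≤ 8 * (5 * (C₁ : ℝ) + 1) / η := by positivity
  have c1 : 18 * 3 ^ d * (C₁ : ℝ) ≤ c := by linarith
  have c2 : (d : ℝ) ^ d ≤ c := by linarith
  have c3 : CA * (h : ℝ) ^ d / η' ≤ c := by linarith
  have c4 : 24 * CA * (2 * (h : ℝ)) ^ (2 * d) / η ≤ c := by linarith
  have c5 : 32 * C₁ / η ≤ c := by linarith
  have c6 : 8 * (5 * (C₁ : ℝ) + 1) / η ≤ c := by linarith
  have c7 : 8 ≤ c := by linarith
  have p3 : (27 : ℝ) ≤ 3 ^ d := by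
    calc (27 : ℝ) = 3 ^ 3 := by norm_num
      _ ≤ 3 ^ d := pow_le_pow_right₀ (by norm_num) hd
  have c8 : (C₁ : ℝ) ≤ c := by nlinarith
  clear hc
  obtain ⟨C₂, hC₂⟩ : ∃ C₂ : ℝ, C₂ = 100 * d * C₁ := ⟨_, rfl⟩
  have hC₂1 : 300 ≤ C₂ := by rw [hC₂]; nlinarith
  obtain ⟨L₀, hL₀⟩ := par_pow C₂ c A (by linarith) (by linarith)
  refine ⟨max L₀ 3, fun L K _ hL hlogK hK2 => ?_⟩
  obtain ⟨hℓ1, hℓc, hZK⟩ := hL₀ L K ((le_max_left _ _).trans hL) hlogK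
  have hL3 : 3 ≤ L := (le_max_right _ _).trans hL
  obtain ⟨Z, hZ⟩ : ∃ Z : ℕ, Z = ⌈C₂ * Real.log L⌉₊ := ⟨_, rfl⟩
  rw [← hZ] at hZK
  have hZℓ : C₂ * Real.log L ≤ Z := by rw [hZ]; exact Nat.le_ceil _
  have hZr : c ≤ Z := by nlinarith
  have hZ1r : (1 : ℝ) ≤ Z := by linarith
  have hZ1 : 1 ≤ Z := by exact_mod_cast hZ1r
  have hZC : C₁ ≤ Z := by
    have : (C₁ : ℝ) ≤ Z := by linarith
    exact_mod_cast this
  obtain ⟨κ, hκd⟩ : ∃ κ : ℝ, κ = (K : ℝ) ^ (1 / 8 : ℝ) := ⟨_, rfl⟩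
  have hK0 : (0 : ℝ) ≤ K := Nat.cast_nonneg _
  have hκ0 : 0 ≤ κ := by rw [hκd]; positivity
  have hκ8 : κ ^ 8 = K := by
    rw [hκd, ← Real.rpow_natCast, ← Real.rpow_mul hK0]
    norm_num
  have hbase : c * (Z : ℝ) ^ A ≤ κ := by
    rw [← hκ8] at hZK
    exact le_of_pow_le_pow_left₀ (by norm_num) hκ0 hZK
  clear hκd hZK
  -- a general tool: `c' * Z ^ a ≤ κ`
  have tool : ∀ (c' : ℝ) (a : ℕ), 0 ≤ c' → c' ≤ c → a ≤ A → c' * (Z : ℝ) ^ a ≤ κ := by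
    intro c' a h0 h1 h2
    refine le_trans ?_ hbase
    have h3 : (Z : ℝ) ^ a ≤ (Z : ℝ) ^ A := pow_le_pow_right₀ hZ1r h2
    gcongr
  have hκc : c ≤ κ := by simpa using tool c 0 (by linarith) le_rfl (by omega)
  have hκ1 : 1 ≤ κ := by linarith
  have hκpos : 0 < κ := by linarith
  have hκZ : 18 * 3 ^ d * C₁ * (Z : ℝ) ≤ κ := by
    simpa using tool (18 * 3 ^ d * C₁) 1 k1 c1 (by omega)
  have hLr : (0 : ℝ) < L := Lpos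
  have hL1 : (1 : ℝ) ≤ L := by exact_mod_cast (by omega : 1 ≤ L)
  have hLd : (0 : ℝ) < (L : ℝ) ^ d := by positivity
  have hκ16 : κ ^ 16 ≤ (L : ℝ) ^ d := by
    have h1 : (K : ℝ) ^ 2 ≤ (L : ℝ) ^ 3 := by exact_mod_cast hK2
    calc κ ^ 16 = (κ ^ 8) ^ 2 := by ring
      _ = (K : ℝ) ^ 2 := by rw [hκ8]
      _ ≤ (L : ℝ) ^ 3 := h1
      _ ≤ (L : ℝ) ^ d := pow_le_pow_right₀ hL1 hd
  have hK1 : 1 ≤ K := by
    have : (1 : ℝ) ≤ K := by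
      rw [← hκ8]
      exact one_le_pow₀ hκ1
    exact_mod_cast this
  have hKL2 : K ≤ L ^ 2 := by
    have h1 : K ^ 2 ≤ (L ^ 2) ^ 2 := by
      calc K ^ 2 ≤ L ^ 3 := hK2
        _ ≤ L ^ 4 := Nat.pow_le_pow_right (by omega) (by norm_num)
        _ = (L ^ 2) ^ 2 := by ring
    exact le_of_pow_le_pow_left₀ (by norm_num) (Nat.zero_le _) h1
  have hKLd : K ≤ L ^ d := hKL2.trans (Nat.pow_le_pow_right (by omega) (by omega))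
  have hLZ : (L : ℝ) ^ d ≤ Real.exp Z := by
    rw [Pool.Agent.Q297.LC.pow_exp (by omega : 1 ≤ L), Real.exp_le_exp]
    refine le_trans ?_ hZℓ
    refine mul_le_mul_of_nonneg_right ?_ (by linarith)
    rw [hC₂]
    nlinarith
  -- the radius `r₁`
  obtain ⟨r₁, hr₁a, hr₁b⟩ := Pool.Agent.Q297.LC.exists_root (8 * d) (K ^ 9) (by omega)
  have hr₁c : ((r₁ : ℝ)) ^ d ≤ κ ^ 9 := by
    have h1 : (((r₁ : ℝ)) ^ d) ^ 8 ≤ (κ ^ 9) ^ 8 := by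
      have h2 : ((r₁ : ℝ)) ^ (8 * d) ≤ (K : ℝ) ^ 9 := by exact_mod_cast hr₁a
      calc (((r₁ : ℝ)) ^ d) ^ 8 = (r₁ : ℝ) ^ (8 * d) := by rw [← pow_mul]; ring_nf
        _ ≤ (K : ℝ) ^ 9 := h2
        _ = (κ ^ 9) ^ 8 := by rw [← hκ8]; ring
    exact le_of_pow_le_pow_left₀ (by norm_num) (by positivity) h1
  have hr₁d : κ ^ 9 < ((r₁ : ℝ) + 1) ^ d := by
    have h1 : (κ ^ 9) ^ 8 < (((r₁ : ℝ) + 1) ^ d) ^ 8 := by
      have h2 : (K : ℝ) ^ 9 < ((r₁ : ℝ) + 1) ^ (8 * d) := by exact_mod_cast hr₁b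
      calc (κ ^ 9) ^ 8 = (K : ℝ) ^ 9 := by rw [← hκ8]; ring
        _ < ((r₁ : ℝ) + 1) ^ (8 * d) := h2
        _ = _ := by rw [← pow_mul]; ring_nf
    exact lt_of_pow_lt_pow_left₀ 8 (by positivity) h1
  have hκ9 : κ ≤ κ ^ 9 := le_self_pow₀ hκ1 (by norm_num)
  have hr₁Z : Z ^ m₁ ≤ r₁ := by
    by_contra hcon
    push Not at hcon
    have h1 : ((r₁ : ℝ)) + 1 ≤ (Z : ℝ) ^ m₁ := by exact_mod_cast hcon
    have h2 : ((r₁ : ℝ) + 1) ^ d ≤ (Z : ℝ) ^ (d * m₁) := by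
      rw [mul_comm d m₁, pow_mul]
      exact pow_le_pow_left₀ (by positivity) h1 d
    have h3 := tool 1 (d * m₁) (by norm_num) (by linarith) (by omega)
    linarith
  have hr₁dd : d ≤ r₁ := by
    by_contra hcon
    push Not at hcon
    have h1 : ((r₁ : ℝ)) + 1 ≤ d := by exact_mod_cast hcon
    have h2 : ((r₁ : ℝ) + 1) ^ d ≤ (d : ℝ) ^ d := pow_le_pow_left₀ (by positivity) h1 d
    linarith
  have hr₁1 : 1 ≤ r₁ := by omega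
  have hr₁r : (1 : ℝ) ≤ r₁ := by exact_mod_cast hr₁1
  have hK9 : K ^ 9 ≤ (2 * r₁) ^ (8 * d) := by
    refine hr₁b.le.trans (Nat.pow_le_pow_left (by omega) _)
  have hr₁K : r₁ ^ 2 ≤ K * Z ^ 2 := by
    have h1 : (r₁ ^ 2) ^ 12 ≤ K ^ 12 := by
      calc (r₁ ^ 2) ^ 12 = r₁ ^ 24 := by ring
        _ ≤ r₁ ^ (8 * d) := Nat.pow_le_pow_right hr₁1 (by omega)
        _ ≤ K ^ 9 := hr₁a
        _ ≤ K ^ 12 := Nat.pow_le_pow_right hK1 (by norm_num)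
    have h2 : r₁ ^ 2 ≤ K := le_of_pow_le_pow_left₀ (by norm_num) (Nat.zero_le _) h1
    exact h2.trans (Nat.le_mul_of_pos_right _ (by positivity))
  have hZL : 8 * Z ^ m₁ ≤ L := by
    have h1 : (8 : ℝ) * (Z : ℝ) ^ m₁ ≤ κ := tool 8 m₁ (by norm_num) c7 (by
      rw [hA]
      nlinarith)
    have h2 : ((8 * Z ^ m₁ : ℕ) : ℝ) ^ 3 ≤ (L : ℝ) ^ 3 := by
      push_cast
      calc ((8 : ℝ) * (Z : ℝ) ^ m₁) ^ 3 ≤ κ ^ 3 := by gcongr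
        _ ≤ κ ^ 16 := pow_le_pow_right₀ hκ1 (by norm_num)
        _ = (K : ℝ) ^ 2 := by rw [← hκ8]; ring
        _ ≤ (L : ℝ) ^ 3 := by exact_mod_cast hK2
    have h3 : ((8 * Z ^ m₁ : ℕ) : ℝ) ≤ L := le_of_pow_le_pow_left₀ (by norm_num) hLr.le h2
    exact_mod_cast h3
  have hZKK : Z ^ m₁ ≤ K := by
    have h1 : (1 : ℝ) * (Z : ℝ) ^ m₁ ≤ κ := tool 1 m₁ (by norm_num) (by linarith) (by
      rw [hA]
      nlinarith)
    have h2 : ((Z ^ m₁ : ℕ) : ℝ) ≤ K := by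
      push_cast
      rw [← hκ8]
      have : κ ≤ κ ^ 8 := le_self_pow₀ hκ1 (by norm_num)
      linarith
    exact_mod_cast h2
  -- `w`
  obtain ⟨w, hw⟩ : ∃ w : ℝ, w = 1 - κ ^ 10 / (L : ℝ) ^ d := ⟨_, rfl⟩
  have h1w : 1 - w = κ ^ 10 / (L : ℝ) ^ d := by rw [hw]; ring
  have hκ6 : 8 ≤ κ ^ 6 := by
    have h1 : κ ≤ κ ^ 6 := le_self_pow₀ hκ1 (by norm_num)
    linarith
  have hw1 : w < 1 := by
    have : 0 < κ ^ 10 / (L : ℝ) ^ d := by positivity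
    linarith
  have hwh : 1 / 2 ≤ w := by
    have h1 : κ ^ 10 / (L : ℝ) ^ d ≤ 1 / 2 := by
      rw [div_le_iff₀ hLd]
      have h2 : κ ^ 10 * 8 ≤ κ ^ 16 := by
        calc κ ^ 10 * 8 ≤ κ ^ 10 * κ ^ 6 := by gcongr
          _ = κ ^ 16 := by ring
      linarith
    linarith
  have hLw : (L : ℝ) ^ d * (1 - w) = κ ^ 10 := by
    rw [h1w]
    field_simp
  obtain ⟨κB, hκB⟩ : ∃ κB : ℝ, κB = C₁ * ((K : ℝ) ^ (-(d / 2 : ℝ)) + 1 / ((L : ℝ) ^ d * (1 - w))) :=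
    ⟨_, rfl⟩
  have hKd : (K : ℝ) ^ (d / 2 : ℝ) = κ ^ (4 * d) := by
    rw [← hκ8, ← Real.rpow_natCast, ← Real.rpow_mul hκ0, ← Real.rpow_natCast]
    congr 1
    push_cast
    ring
  have hKd' : (K : ℝ) ^ (-(d / 2 : ℝ)) = 1 / κ ^ (4 * d) := by
    rw [Real.rpow_neg hK0, hKd, one_div]
  have hκB0 : 0 ≤ κB := by
    rw [hκB, hKd', hLw]
    positivity
  have hκB1 : κB ≤ 2 * C₁ / κ ^ 10 := by
    rw [hκB, hKd', hLw]
    have h1 : 1 / κ ^ (4 * d) ≤ 1 / κ ^ 10 :=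
      one_div_le_one_div_of_le (by positivity) (pow_le_pow_right₀ hκ1 (by omega))
    calc C₁ * (1 / κ ^ (4 * d) + 1 / κ ^ 10) ≤ C₁ * (1 / κ ^ 10 + 1 / κ ^ 10) := by gcongr
      _ = _ := by ring
  have hr₁3 : ((2 * r₁ + 1 : ℕ) : ℝ) ^ d ≤ 3 ^ d * κ ^ 9 := by
    have h1 : ((2 * r₁ + 1 : ℕ) : ℝ) ≤ 3 * r₁ := by
      push_cast
      linarith
    calc ((2 * r₁ + 1 : ℕ) : ℝ) ^ d ≤ (3 * (r₁ : ℝ)) ^ d := pow_le_pow_left₀ (by positivity) h1 d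
      _ = 3 ^ d * (r₁ : ℝ) ^ d := mul_pow _ _ _
      _ ≤ 3 ^ d * κ ^ 9 := by gcongr
  have hkey : ((2 * r₁ + 1 : ℕ) : ℝ) ^ d * ((Z + 2) * κB) ≤ Real.exp (-1) := by
    have h1 : ((2 * r₁ + 1 : ℕ) : ℝ) ^ d * ((Z + 2) * κB) ≤
        3 ^ d * κ ^ 9 * ((3 * Z) * (2 * C₁ / κ ^ 10)) := by
      have : (Z : ℝ) + 2 ≤ 3 * Z := by linarith
      gcongr
    have h2 : 3 ^ d * κ ^ 9 * ((3 * (Z : ℝ)) * (2 * C₁ / κ ^ 10)) = (6 * 3 ^ d * C₁ * Z) / κ := by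
      field_simp
      ring
    have h3 : (6 * 3 ^ d * C₁ * (Z : ℝ)) / κ ≤ 1 / 3 := by
      rw [div_le_iff₀ hκpos]
      linarith
    have h4 : 1 / 3 ≤ Real.exp (-1) := by
      rw [Real.exp_neg, one_div]
      refine inv_anti₀ (Real.exp_pos 1) ?_
      have := Real.exp_one_lt_d9
      linarith
    linarith
  have hκZ1 : ((Z : ℝ) + 2) * κB ≤ 1 := by
    have h1 : (1 : ℝ) ≤ ((2 * r₁ + 1 : ℕ) : ℝ) ^ d := by
      refine one_le_pow₀ ?_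
      push_cast
      linarith
    have h2 : Real.exp (-1) ≤ 1 := Real.exp_le_one_iff.2 (by norm_num)
    have h3 : 0 ≤ ((Z : ℝ) + 2) * κB := by positivity
    have h4 : 1 * (((Z : ℝ) + 2) * κB) ≤ ((2 * r₁ + 1 : ℕ) : ℝ) ^ d * ((Z + 2) * κB) :=
      mul_le_mul_of_nonneg_right h1 h3
    linarith
  have hrL : (Z + 1) * (2 * r₁ + 1) ^ d ≤ L ^ d := by
    have h1 : (((Z + 1) * (2 * r₁ + 1) ^ d : ℕ) : ℝ) ≤ (L : ℝ) ^ d := by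
      have h2 : (((Z + 1) * (2 * r₁ + 1) ^ d : ℕ) : ℝ) = ((Z : ℝ) + 1) * ((2 * r₁ + 1 : ℕ) : ℝ) ^ d := by
        push_cast
        ring
      rw [h2]
      calc ((Z : ℝ) + 1) * ((2 * r₁ + 1 : ℕ) : ℝ) ^ d ≤ (2 * Z) * (3 ^ d * κ ^ 9) := by
            have : (Z : ℝ) + 1 ≤ 2 * Z := by linarith
            gcongr
        _ = (2 * 3 ^ d * Z) * κ ^ 9 := by ring
        _ ≤ κ * κ ^ 9 := by
            refine mul_le_mul_of_nonneg_right ?_ (by positivity)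
            refine le_trans ?_ hκZ
            have h5 : 0 ≤ (3 : ℝ) ^ d * Z := by positivity
            nlinarith
        _ = κ ^ 10 := by ring
        _ ≤ κ ^ 16 := pow_le_pow_right₀ hκ1 (by norm_num)
        _ ≤ _ := hκ16
    exact_mod_cast h1
  have hbig : ((CA : ℝ) * (Z : ℝ) ^ (d + 2) * (h : ℝ) ^ d / η') ^ 8 ≤ K := by
    rw [← hκ8]
    refine pow_le_pow_left₀ (by positivity) ?_ 8
    have h1 := tool (CA * (h : ℝ) ^ d / η') (d + 2) k3 c3 (by omega)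
    refine le_trans (le_of_eq ?_) h1
    ring
  obtain ⟨q₀, hq₀⟩ := hB Z hZC L K Z r₁ Z ((Z - 1) / 2) le_rfl le_rfl (by omega) hLZ
    hr₁Z hZL hZKK hKLd
  obtain ⟨q₁, hq₁⟩ := hLam h hh Z hZ1 η' hη'0 hη'1 L K Z r₁ Z (2 * ((Z - 1) / 2)) le_rfl le_rfl hLZ
    hL3 hKL2 hr₁dd hK9 hr₁K hbig
  refine ⟨max (max q₀ q₁) 2, fun q hq σ hσ δ hδ1 hδ2 => ?_⟩
  have hqq₀ : q₀ ≤ q := (le_max_left _ _).trans ((le_max_left _ _).trans hq)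
  have hqq₁ : q₁ ≤ q := (le_max_right _ _).trans ((le_max_left _ _).trans hq)
  have hq2 : (2 : ℝ) ≤ q := by exact_mod_cast (le_max_right _ _).trans hq
  have hδ0 : 0 ≤ δ := by
    by_contra hcon
    push Not at hcon
    nlinarith
  have hδle : δ ≤ 1 := by nlinarith
  obtain ⟨r, hr⟩ : ∃ r, r = Nat.sqrt K / h := ⟨_, rfl⟩
  obtain ⟨e1, e2, e3, -, -⟩ := hq₁ q hqq₁ σ hσ δ hδ1 hδ2 (fun _ => false) ∅
    (Gd_empty σ q K Z r₁ Z (2 * ((Z - 1) / 2)) _) r hr _ rfl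
  rw [← hr]
  have hrL' : r ≤ L := by omega
  refine ⟨e1, hrL', ?_⟩
  obtain ⟨b1, b2⟩ := hq₀ q hqq₀ σ hσ δ hδ1 hδ2 w (by linarith) hw1 κB hκB hκZ1
  have b4 := Pool.Agent.Q297.LC.fail_bound (d := d) (C₁ := C₁) (L := L) (K := K) (Z := Z) (r := r₁)
    (κ := κB) (by omega) hC₁ (by omega) (by rw [hC₂] at hZℓ; exact hZℓ) hKLd hrL hκB0 hkey
  have hsplit := dev_split (d := d) (L := L) (by omega) (ed ∘ σ) (K * (q * ms d L)) δ w ε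
    (CA * (K : ℝ) ^ (d / 2 : ℝ) / (r : ℝ) ^ (2 * d)) η' κB ((5 * C₁ + 1) * (1 / (L : ℝ) ^ d)) r
    (fun ω A => Gd σ q K Z r₁ Z (2 * ((Z - 1) / 2)) ω A) hδ0 hδle (by linarith) hw1
    (by positivity) hη'0.le hη'1 e1 hrL'
    (fun A => (Pool.Agent.Q154.LC.gdm d L σ q K Z r₁ Z (2 * ((Z - 1) / 2))).1 A)
    (fun ω A hG => (hq₁ q hqq₁ σ hσ δ hδ1 hδ2 ω A hG r hr _ rfl).2.2.2.1)
    (fun ω A hG z => (hq₁ q hqq₁ σ hσ δ hδ1 hδ2 ω A hG r hr _ rfl).2.2.2.2 z w hwh hw1)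
    (b1.trans b4) b2
  refine hsplit.trans ?_
  have hr0 : (0 : ℝ) < r := by exact_mod_cast e1
  have t1 : 3 * ((L : ℝ) ^ d * ((1 - w) * (CA * (K : ℝ) ^ (d / 2 : ℝ) / (r : ℝ) ^ (2 * d)))) ≤ η / 8 := by
    rw [hKd]
    have s1 : 3 * ((L : ℝ) ^ d * ((1 - w) * (CA * κ ^ (4 * d) / (r : ℝ) ^ (2 * d)))) =
        3 * CA * (κ ^ 10 * κ ^ (4 * d) / (r : ℝ) ^ (2 * d)) := by
      rw [← hLw]
      ring
    have hsK : Real.sqrt K = κ ^ 4 := by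
      rw [← hκ8, show κ ^ 8 = (κ ^ 4) ^ 2 by ring, Real.sqrt_sq (by positivity)]
    rw [hsK] at e3
    have s2 : κ ^ (8 * d) ≤ (2 * (h : ℝ)) ^ (2 * d) * (r : ℝ) ^ (2 * d) := by
      calc κ ^ (8 * d) = (κ ^ 4) ^ (2 * d) := by rw [← pow_mul]; ring_nf
        _ ≤ (2 * h * r) ^ (2 * d) := pow_le_pow_left₀ (by positivity) e3 _
        _ = _ := by rw [← mul_pow]
    have s3 : κ ^ 10 * κ ^ (4 * d) / (r : ℝ) ^ (2 * d) ≤ (2 * (h : ℝ)) ^ (2 * d) / κ := by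
      rw [div_le_div_iff₀ (by positivity) hκpos]
      calc κ ^ 10 * κ ^ (4 * d) * κ = κ ^ (4 * d + 11) := by ring
        _ ≤ κ ^ (8 * d) := pow_le_pow_right₀ hκ1 (by omega)
        _ ≤ _ := s2
    rw [s1]
    calc 3 * CA * (κ ^ 10 * κ ^ (4 * d) / (r : ℝ) ^ (2 * d)) ≤
          3 * CA * ((2 * (h : ℝ)) ^ (2 * d) / κ) := by gcongr
      _ ≤ η / 8 := by
        rw [← mul_div_assoc, div_le_iff₀ hκpos]
        have s4 := c4.trans hκc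
        rw [div_le_iff₀ hη] at s4
        linarith
  have t2 : 2 * κB ≤ η / 8 := by
    have s1 : 2 * κB ≤ 4 * C₁ / κ := by
      calc 2 * κB ≤ 2 * (2 * C₁ / κ ^ 10) := by gcongr
        _ = 4 * C₁ / κ ^ 10 := by ring
        _ ≤ 4 * C₁ / κ := by
            apply div_le_div_of_nonneg_left (by positivity) hκpos
            exact le_self_pow₀ hκ1 (by norm_num)
    refine s1.trans ?_
    rw [div_le_iff₀ hκpos]
    have s4 := c5.trans hκc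
    rw [div_le_iff₀ hη] at s4
    linarith
  have t3 : (5 * (C₁ : ℝ) + 1) * (1 / (L : ℝ) ^ d) ≤ η / 8 := by
    have s1 : κ ≤ (L : ℝ) ^ d := (le_self_pow₀ hκ1 (by norm_num)).trans hκ16
    rw [mul_one_div, div_le_iff₀ hLd]
    have s4 := c6.trans (hκc.trans s1)
    rw [div_le_iff₀ hη] at s4
    linarith
  linarith

end Pool.Agent.K9h51.LC
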