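import Pool.Agent.K9h51.LC.Dva
import Pool.Agent.Q53.LC.Poi
import Pool.Agent.Q257.LC.Geo

/-!
# Project LC: the mean over a box and the mean over all boxes (DYA)
-/

set_option autoImplicit false

namespace Pool.Agent.K9h51.LC

open Finset Equiv Matrix Q292.LC

section gen

variable {V : Type} [DecidableEq V]

/-- mean over a set -/
noncomputable def hm (S : Finset V) (f : V → ℝ) : ℝ := (∑ x ∈ S, f x) / (S.card : ℝ)

omit [DecidableEq V] in
theorem avg_diff (S S' G : Finset V) (f : V → ℝ) (hS : S ⊆ G) (hS' : S' ⊆ G) (h : 0 < S.card)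
    (h' : 0 < S'.card) :
    (hm S f - hm S' f) ^ 2 ≤ (∑ x ∈ G, ∑ y ∈ G, (f x - f y) ^ 2) / ((S.card : ℝ) * S'.card) := by
  have hc : (0 : ℝ) < S.card := by exact_mod_cast h
  have hc' : (0 : ℝ) < S'.card := by exact_mod_cast h'
  have e1 : hm S f - hm S' f = (∑ p ∈ S ×ˢ S', (f p.1 - f p.2)) / ((S.card : ℝ) * S'.card) := by
    rw [Finset.sum_product]
    simp only [Finset.sum_sub_distrib, Finset.sum_const, nsmul_eq_mul, ← Finset.mul_sum]
    unfold hm
    field_simp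
  have h2 : (∑ p ∈ S ×ˢ S', (f p.1 - f p.2)) ^ 2 ≤
      ((S.card : ℝ) * S'.card) * ∑ p ∈ S ×ˢ S', (f p.1 - f p.2) ^ 2 := by
    have := sq_sum_le_card_mul_sum_sq (s := S ×ˢ S') (f := fun p => f p.1 - f p.2)
    rw [Finset.card_product] at this
    push_cast at this
    exact this
  have h3 : ∑ p ∈ S ×ˢ S', (f p.1 - f p.2) ^ 2 ≤ ∑ x ∈ G, ∑ y ∈ G, (f x - f y) ^ 2 := by
    rw [← Finset.sum_product' (f := fun x y => (f x - f y) ^ 2)]
    exact Finset.sum_le_sum_of_subset_of_nonneg (Finset.product_subset_product hS hS')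
      fun _ _ _ => sq_nonneg _
  rw [e1, div_pow, div_le_div_iff₀ (by positivity) (by positivity)]
  have h4 : (∑ p ∈ S ×ˢ S', (f p.1 - f p.2)) ^ 2 ≤
      ((S.card : ℝ) * S'.card) * ∑ x ∈ G, ∑ y ∈ G, (f x - f y) ^ 2 :=
    h2.trans (mul_le_mul_of_nonneg_left h3 (by positivity))
  calc _ ≤ (((S.card : ℝ) * S'.card) * ∑ x ∈ G, ∑ y ∈ G, (f x - f y) ^ 2) *
        ((S.card : ℝ) * S'.card) := mul_le_mul_of_nonneg_right h4 (by positivity)
    _ = _ := by ring

end gen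

section torus

variable {d L : ℕ} [NeZero L]

theorem box_mono (z : Fin d → ZMod L) {a b : ℕ} (h : a ≤ b) : box z a ⊆ box z b := by
  intro x hx
  unfold Q292.LC.box at hx ⊢
  rw [Finset.mem_filter] at hx ⊢
  exact ⟨hx.1, fun i => (hx.2 i).trans_le h⟩

/-- a common part of two large boxes -/
theorem common (z z' : Fin d → ZMod L) (m m₁ : ℕ) (h1 : 3 * L ≤ 4 * m) (h2 : 4 * m₁ ≤ L) :
    ∃ w : Fin d → ZMod L, box w m₁ ⊆ box z m ∧ box w m₁ ⊆ box z' m := by
  have hL : 0 < L := Nat.pos_of_ne_zero (NeZero.ne L)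
  refine ⟨fun i => if 2 * (z' i - z i).val ≤ L then z' i else z i, ?_, ?_⟩
  · intro x hx
    unfold Q292.LC.box at hx ⊢
    rw [Finset.mem_filter] at hx ⊢
    refine ⟨hx.1, fun i => ?_⟩
    have h3 := hx.2 i
    by_cases hc : 2 * (z' i - z i).val ≤ L
    · simp only [if_pos hc] at h3
      have e1 : x i - z i = (x i - z' i) + (z' i - z i) := by ring
      have h4 := ZMod.val_add_le (x i - z' i) (z' i - z i)
      rw [← e1] at h4
      omega
    · simp only [if_neg hc] at h3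
      omega
  · intro x hx
    unfold Q292.LC.box at hx ⊢
    rw [Finset.mem_filter] at hx ⊢
    refine ⟨hx.1, fun i => ?_⟩
    have h3 := hx.2 i
    by_cases hc : 2 * (z' i - z i).val ≤ L
    · simp only [if_pos hc] at h3
      omega
    · simp only [if_neg hc] at h3
      have e1 : x i - z' i = (x i - z i) + (z i - z' i) := by ring
      have h4 := ZMod.val_add_le (x i - z i) (z i - z' i)
      rw [← e1] at h4
      have h5 : (z i - z' i).val = L - (z' i - z i).val := by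
        have h6 : z i - z' i = -(z' i - z i) := by ring
        rw [h6, ZMod.neg_val]
        have h7 : z' i - z i ≠ 0 := by
          intro h8
          rw [h8, ZMod.val_zero] at hc
          omega
        rw [if_neg h7]
      omega

theorem phz_dot (r : ℕ) (Dm : Finset (Fin d → ZMod L)) (z : Fin d → ZMod L)
    (f : (Fin d → ZMod L) → ℝ) :
    phz r Dm z ⬝ᵥ f = (∑ z', (hm (box z r \ Dm) f - hm (box z' r \ Dm) f)) / (L : ℝ) ^ d := by
  have hL : (0 : ℝ) < (L : ℝ) ^ d := pow_pos Lpos _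
  have h1 : ∀ z', ∑ x, chi r Dm z' x * f x = hm (box z' r \ Dm) f := by
    intro z'
    unfold chi hm
    simp only [ite_mul, zero_mul]
    rw [← Finset.sum_filter, Finset.filter_mem_eq_inter, Finset.univ_inter, ← Finset.mul_sum]
    ring
  unfold dotProduct phz
  simp only [sub_mul]
  rw [Finset.sum_sub_distrib, h1]
  have h2 : ∑ x, (∑ z', chi r Dm z' x) / (L : ℝ) ^ d * f x =
      (∑ z', hm (box z' r \ Dm) f) / (L : ℝ) ^ d := by
    simp only [← h1]
    rw [Finset.sum_comm, Finset.sum_div]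
    refine Finset.sum_congr rfl fun x _ => ?_
    rw [← Finset.sum_mul]
    ring
  rw [h2, Finset.sum_sub_distrib, Finset.sum_const, Finset.card_univ, nsmul_eq_mul, card_V]
  field_simp

theorem dya : S_DYA := by
  intro d hd
  obtain ⟨C, hC1, hC⟩ := Pool.Agent.Q53.LC.poi d (by omega)
  refine ⟨4096 * C, by linarith, ?_⟩
  intro L _ r hr hrL Dm hDm f z
  obtain ⟨E, hE⟩ : ∃ E, E = ∑ x, ∑ y, (if x ∉ Dm ∧ y ∉ Dm ∧ td x y ≤ 2 * d * r then
    (f x - f y) ^ 2 else 0) := ⟨_, rfl⟩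
  rw [← hE]
  have hr0 : (0 : ℝ) < r := by exact_mod_cast hr
  have hE0 : 0 ≤ E := by
    rw [hE]
    refine Finset.sum_nonneg fun x _ => Finset.sum_nonneg fun y _ => ?_
    split_ifs
    · exact sq_nonneg _
    · exact le_rfl
  -- POI in all boxes
  have hP : ∀ (z : Fin d → ZMod L) (M : ℕ), 1 ≤ M → M * r ≤ L →
      ∑ x ∈ box z (M * r) \ Dm, ∑ y ∈ box z (M * r) \ Dm, (f x - f y) ^ 2 ≤
        C * M ^ (d + 2) * E := by
    intro z M hM hML
    refine (hC L r M hr hM hML z Dm hDm f).trans ?_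
    refine mul_le_mul_of_nonneg_left ?_ (by positivity)
    rw [hE]
    calc ∑ x ∈ box z (M * r) \ Dm, ∑ y ∈ box z (M * r) \ Dm,
          (if td x y ≤ 2 * d * r then (f x - f y) ^ 2 else 0)
        ≤ ∑ x ∈ box z (M * r) \ Dm, ∑ y, (if x ∉ Dm ∧ y ∉ Dm ∧ td x y ≤ 2 * d * r then
          (f x - f y) ^ 2 else 0) := by
          refine Finset.sum_le_sum fun x hx => ?_
          rw [← Finset.sum_filter_add_sum_filter_not univ (fun y => y ∈ box z (M * r) \ Dm)]
          rw [Finset.filter_mem_eq_inter, Finset.univ_inter]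
          refine le_add_of_le_of_nonneg (le_of_eq ?_) ?_
          · refine Finset.sum_congr rfl fun y hy => ?_
            have h1 := (Finset.mem_sdiff.1 hx).2
            have h2 := (Finset.mem_sdiff.1 hy).2
            simp [h1, h2]
          · refine Finset.sum_nonneg fun y _ => ?_
            split_ifs
            · exact sq_nonneg _
            · exact le_rfl
      _ ≤ _ := by
          refine Finset.sum_le_sum_of_subset_of_nonneg (Finset.subset_univ _) fun x _ _ => ?_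
          refine Finset.sum_nonneg fun y _ => ?_
          split_ifs
          · exact sq_nonneg _
          · exact le_rfl
  -- sizes
  have hcard : ∀ (z : Fin d → ZMod L) (M : ℕ), 1 ≤ M → M * r ≤ L →
      ((M : ℝ) * r) ^ d / 2 ≤ ((box z (M * r) \ Dm).card : ℝ) := by
    intro z M hM hML
    have h1 := Pool.Agent.Q187.LC.Nas.card_Dm z r M hr Dm hDm
    have h2 := Finset.card_sdiff_add_card_inter (box z (M * r)) Dm
    rw [Pool.Agent.Q187.LC.Nas.card_box z (M * r) hML, Finset.inter_comm] at h2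
    have h3 : (M * r) ^ d ≤ 2 * (box z (M * r) \ Dm).card := by omega
    have h4 : ((M : ℝ) * r) ^ d ≤ 2 * ((box z (M * r) \ Dm).card : ℝ) := by exact_mod_cast h3
    linarith
  have hpos : ∀ (z : Fin d → ZMod L) (M : ℕ), 1 ≤ M → M * r ≤ L →
      0 < (box z (M * r) \ Dm).card := by
    intro z M hM hML
    have h1 := hcard z M hM hML
    have h2 : (0 : ℝ) < ((M : ℝ) * r) ^ d / 2 := by
      have : (0 : ℝ) < M := by exact_mod_cast hM
      positivity
    exact_mod_cast h2.trans_le h1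
  -- comparison inside one box
  have hcmp : ∀ (z w : Fin d → ZMod L) (M M' : ℕ), 1 ≤ M → 1 ≤ M' → M' * r ≤ L → M * r ≤ L →
      box w (M * r) ⊆ box z (M' * r) →
      (hm (box w (M * r) \ Dm) f - hm (box z (M' * r) \ Dm) f) ^ 2 ≤
        4 * C * ((M' : ℝ) ^ 2 / (M : ℝ) ^ d) * (E / (r : ℝ) ^ (2 * d)) := by
    intro z w M M' hM hM' hML' hML hsub
    have hM0 : (0 : ℝ) < M := by exact_mod_cast hM
    have hM0' : (0 : ℝ) < M' := by exact_mod_cast hM'
    refine (avg_diff (box w (M * r) \ Dm) (box z (M' * r) \ Dm) (box z (M' * r) \ Dm) f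
      (Finset.sdiff_subset_sdiff hsub le_rfl) le_rfl (hpos w M hM hML) (hpos z M' hM' hML')).trans ?_
    have h1 := hcard w M hM hML
    have h2 := hcard z M' hM' hML'
    have h3 := hP z M' hM' hML'
    have h4 : (0 : ℝ) < ((M : ℝ) * r) ^ d / 2 * (((M' : ℝ) * r) ^ d / 2) := by positivity
    calc _ ≤ (C * M' ^ (d + 2) * E) / (((M : ℝ) * r) ^ d / 2 * (((M' : ℝ) * r) ^ d / 2)) := by
          refine div_le_div₀ (by positivity) h3 h4 ?_
          exact mul_le_mul h1 h2 (by positivity) (by positivity)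
      _ = _ := by
          rw [mul_pow, mul_pow, two_mul d, pow_add, pow_add]
          field_simp
          ring
  obtain ⟨D, hD⟩ : ∃ D, D = Real.sqrt (C * (E / (r : ℝ) ^ (2 * d))) := ⟨_, rfl⟩
  have hD0 : 0 ≤ D := by rw [hD]; exact Real.sqrt_nonneg _
  have hD2 : D ^ 2 = C * (E / (r : ℝ) ^ (2 * d)) := by
    rw [hD]
    exact Real.sq_sqrt (by positivity)
  obtain ⟨s, hs⟩ : ∃ s : ℝ, s = Real.sqrt (1 / 2) := ⟨_, rfl⟩
  have hs0 : 0 ≤ s := by rw [hs]; exact Real.sqrt_nonneg _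
  have hs2 : s ^ 2 = 1 / 2 := by
    rw [hs]
    exact Real.sq_sqrt (by norm_num)
  have hs3 : s ≤ 3 / 4 := by nlinarith
  -- one step
  have hstep : ∀ (z : Fin d → ZMod L) (j M' : ℕ), 2 ^ j ≤ M' → M' ≤ 2 * 2 ^ j → M' * r ≤ L →
      |hm (box z (2 ^ j * r) \ Dm) f - hm (box z (M' * r) \ Dm) f| ≤ 4 * D * s ^ j := by
    intro z j M' h1 h2 h3
    have hM1 : 1 ≤ 2 ^ j := Nat.one_le_two_pow
    have h4 := hcmp z z (2 ^ j) M' hM1 (hM1.trans h1) h3
      ((Nat.mul_le_mul_right r h1).trans h3) (box_mono z (Nat.mul_le_mul_right r h1))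
    refine abs_le_of_sq_le_sq ?_ (by positivity)
    refine h4.trans ?_
    have h5 : ((M' : ℝ)) ^ 2 / (((2 ^ j : ℕ) : ℝ)) ^ d ≤ 4 * (s ^ j) ^ 2 := by
      have e0 : (((2 ^ j : ℕ)) : ℝ) = (2 : ℝ) ^ j := by push_cast; rfl
      rw [e0]
      have e1 : (s ^ j) ^ 2 = 1 / (2 : ℝ) ^ j := by
        rw [← pow_mul, mul_comm, pow_mul, hs2, _root_.one_div_pow]
      have e2 : (M' : ℝ) ≤ 2 * 2 ^ j := by exact_mod_cast h2
      have e3 : (M' : ℝ) ^ 2 ≤ (2 * 2 ^ j) ^ 2 := pow_le_pow_left₀ (by positivity) e2 2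
      have e4 : ((2 : ℝ) ^ j) ^ 3 ≤ ((2 : ℝ) ^ j) ^ d :=
        pow_le_pow_right₀ (one_le_pow₀ (by norm_num)) hd
      rw [e1, mul_one_div, div_le_div_iff₀ (by positivity) (by positivity)]
      calc (M' : ℝ) ^ 2 * 2 ^ j ≤ (2 * 2 ^ j) ^ 2 * 2 ^ j :=
            mul_le_mul_of_nonneg_right e3 (by positivity)
        _ = 4 * ((2 : ℝ) ^ j) ^ 3 := by ring
        _ ≤ _ := mul_le_mul_of_nonneg_left e4 (by norm_num)
    have h6 : 0 ≤ E / (r : ℝ) ^ (2 * d) := by positivity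
    calc 4 * C * ((M' : ℝ) ^ 2 / (((2 ^ j : ℕ) : ℝ)) ^ d) * (E / (r : ℝ) ^ (2 * d))
        ≤ 4 * C * (4 * (s ^ j) ^ 2) * (E / (r : ℝ) ^ (2 * d)) := by gcongr
      _ = 16 * (C * (E / (r : ℝ) ^ (2 * d))) * (s ^ j) ^ 2 := by ring
      _ = (4 * D * s ^ j) ^ 2 := by rw [← hD2]; ring
  have hdy : ∀ (z : Fin d → ZMod L) (j : ℕ), 2 ^ j * r ≤ L →
      |hm (box z (1 * r) \ Dm) f - hm (box z (2 ^ j * r) \ Dm) f| ≤ 16 * D * (1 - s ^ j) := by
    intro z j
    induction j with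
    | zero => intro _; simp
    | succ j ih =>
      intro hj
      have h1 : 2 ^ j * r ≤ L := le_trans (Nat.mul_le_mul_right r (Nat.pow_le_pow_right (by norm_num)
        (Nat.le_succ j))) hj
      have h2 := ih h1
      have h3 := hstep z j (2 ^ (j + 1)) (Nat.pow_le_pow_right (by norm_num) (Nat.le_succ j))
        (by rw [pow_succ]; omega) hj
      have h4 : 0 ≤ s ^ j := by positivity
      have h5 : 4 * D * s ^ j ≤ 16 * D * s ^ j * (1 - s) := by
        have : 0 ≤ D * s ^ j := by positivity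
        nlinarith
      calc _ ≤ |hm (box z (1 * r) \ Dm) f - hm (box z (2 ^ j * r) \ Dm) f| +
            |hm (box z (2 ^ j * r) \ Dm) f - hm (box z (2 ^ (j + 1) * r) \ Dm) f| :=
            abs_sub_le _ _ _
        _ ≤ 16 * D * (1 - s ^ j) + 16 * D * s ^ j * (1 - s) := by linarith
        _ = _ := by rw [pow_succ]; ring
  -- the top scales
  obtain ⟨M₀, hM₀⟩ : ∃ M₀, M₀ = L / r := ⟨_, rfl⟩
  obtain ⟨M₁, hM₁⟩ : ∃ M₁, M₁ = L / (4 * r) := ⟨_, rfl⟩
  have hM₁1 : 1 ≤ M₁ := by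
    rw [hM₁]
    exact (Nat.one_le_div_iff (by omega)).2 hrL
  have hM₀L : M₀ * r ≤ L := by
    rw [hM₀]
    exact Nat.div_mul_le_self L r
  have hM₀L2 : L < M₀ * r + r := by
    rw [hM₀]
    have := Nat.lt_div_mul_add (a := L) (b := r) (by omega)
    exact this
  have hM₁L : 4 * (M₁ * r) ≤ L := by
    rw [hM₁]
    have := Nat.div_mul_le_self L (4 * r)
    calc 4 * (L / (4 * r) * r) = L / (4 * r) * (4 * r) := by ring
      _ ≤ L := this
  have hM₁L2 : L < 4 * (M₁ * r) + 4 * r := by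
    rw [hM₁]
    have := Nat.lt_div_mul_add (a := L) (b := 4 * r) (by omega)
    calc L < L / (4 * r) * (4 * r) + 4 * r := this
      _ = _ := by ring
  have hM8 : M₀ ≤ 8 * M₁ := by
    have h1 : M₀ * r < (8 * M₁ + 1) * r := by nlinarith
    have h2 := Nat.lt_of_mul_lt_mul_right h1
    omega
  have hM₀1 : 1 ≤ M₀ := by
    rw [hM₀]
    exact (Nat.one_le_div_iff (by omega)).2 (by omega)
  have htop : ∀ z : Fin d → ZMod L,
      |hm (box z (1 * r) \ Dm) f - hm (box z (M₀ * r) \ Dm) f| ≤ 16 * D := by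
    intro z
    obtain ⟨J, hJ⟩ : ∃ J, J = Nat.log 2 M₀ := ⟨_, rfl⟩
    have h1 : 2 ^ J ≤ M₀ := by rw [hJ]; exact Nat.pow_log_le_self 2 (by omega)
    have h2 : M₀ < 2 ^ (J + 1) := by rw [hJ]; exact Nat.lt_pow_succ_log_self (by norm_num) M₀
    have h3 := hdy z J ((Nat.mul_le_mul_right r h1).trans hM₀L)
    have h4 := hstep z J M₀ h1 (by rw [pow_succ] at h2; omega) hM₀L
    have h5 : 0 ≤ D * s ^ J := by positivity
    calc _ ≤ |hm (box z (1 * r) \ Dm) f - hm (box z (2 ^ J * r) \ Dm) f| +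
          |hm (box z (2 ^ J * r) \ Dm) f - hm (box z (M₀ * r) \ Dm) f| := abs_sub_le _ _ _
      _ ≤ 16 * D := by nlinarith
  have hall : ∀ z z' : Fin d → ZMod L,
      |hm (box z r \ Dm) f - hm (box z' r \ Dm) f| ≤ 64 * D := by
    intro z z'
    obtain ⟨w, hw1, hw2⟩ := common z z' (M₀ * r) (M₁ * r) (by omega) hM₁L
    have hM₁r : M₁ * r ≤ L := by omega
    have e0 : ((M₀ : ℝ)) ^ 2 / ((M₁ : ℝ)) ^ d ≤ 64 := by
      have h1 : (0 : ℝ) < M₁ := by exact_mod_cast hM₁1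
      rw [div_le_iff₀ (by positivity)]
      have h2 : (M₀ : ℝ) ≤ 8 * M₁ := by exact_mod_cast hM8
      have h3 : (M₀ : ℝ) ^ 2 ≤ (8 * M₁) ^ 2 := pow_le_pow_left₀ (by positivity) h2 2
      have h4 : (M₁ : ℝ) ^ 2 ≤ (M₁ : ℝ) ^ d :=
        pow_le_pow_right₀ (by exact_mod_cast hM₁1) (by omega)
      nlinarith
    have h6 : 0 ≤ E / (r : ℝ) ^ (2 * d) := by positivity
    have h1 : ∀ v, box w (M₁ * r) ⊆ box v (M₀ * r) →
        |hm (box w (M₁ * r) \ Dm) f - hm (box v (M₀ * r) \ Dm) f| ≤ 16 * D := by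
      intro v hv
      refine abs_le_of_sq_le_sq ?_ (by positivity)
      refine (hcmp v w M₁ M₀ hM₁1 hM₀1 hM₀L hM₁r hv).trans ?_
      calc 4 * C * ((M₀ : ℝ) ^ 2 / (M₁ : ℝ) ^ d) * (E / (r : ℝ) ^ (2 * d))
          ≤ 4 * C * 64 * (E / (r : ℝ) ^ (2 * d)) := by gcongr
        _ = 256 * (C * (E / (r : ℝ) ^ (2 * d))) := by ring
        _ = (16 * D) ^ 2 := by rw [← hD2]; ring
    have a1 := htop z
    have a2 := htop z'
    have a3 := h1 z hw1
    have a4 := h1 z' hw2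
    rw [one_mul] at a1 a2
    rw [abs_le] at *
    constructor <;> linarith [a1.1, a1.2, a2.1, a2.2, a3.1, a3.2, a4.1, a4.2]
  -- conclusion
  rw [phz_dot]
  have hL : (0 : ℝ) < (L : ℝ) ^ d := pow_pos Lpos _
  have h7 : |(∑ z', (hm (box z r \ Dm) f - hm (box z' r \ Dm) f)) / (L : ℝ) ^ d| ≤ 64 * D := by
    rw [abs_div, abs_of_pos hL, div_le_iff₀ hL]
    refine (Finset.abs_sum_le_sum_abs _ _).trans ?_
    refine (Finset.sum_le_sum fun z' _ => hall z z').trans (le_of_eq ?_)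
    rw [Finset.sum_const, Finset.card_univ, nsmul_eq_mul, card_V]
    ring
  calc _ = |(∑ z', (hm (box z r \ Dm) f - hm (box z' r \ Dm) f)) / (L : ℝ) ^ d| ^ 2 := by
        rw [sq_abs]
    _ ≤ (64 * D) ^ 2 := pow_le_pow_left₀ (abs_nonneg _) h7 2
    _ = 4096 * C / (r : ℝ) ^ (2 * d) * E := by
        rw [mul_pow, hD2]
        ring

end torus

end Pool.Agent.K9h51.LC
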