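import Pool.Agent.Q292.LC.Stm7
import Pool.Agent.Q277.LC.Pe
import Pool.Agent.Q68.LC.Grn
import Pool.Agent.Q68.LC.Bas2
import Pool.Agent.Q257.LC.L1

/-!
# Project LC: resolvent and energy (ENG), resolvent bound for the unmarked cycles (RES)
-/

set_option autoImplicit false

namespace Pool.Agent.K9h51.LC

open Finset Equiv Matrix Q292.LC
open Pool.Agent.Q68.LC (EE_congr EE_const EE_add EE_smul EE_mono EE_succ)

section gen

variable {V : Type} [Fintype V] [DecidableEq V]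

/-- resolvent form and energy for a doubly stochastic matrix -/
theorem eng_gen (T : Matrix V V ℝ) (A : Finset V) (w Λ : ℝ) (φ : V → ℝ)
    (hT0 : ∀ x y, 0 ≤ T x y) (hr : ∀ x, ∑ y, T x y = 1) (hc : ∀ y, ∑ x, T x y = 1)
    (hw : 1 / 2 ≤ w) (hw1 : w < 1) (hΛ : 0 ≤ Λ) (hφ : ∀ a ∈ A, φ a = 0)
    (hE : ∀ f : V → ℝ, (φ ⬝ᵥ f) ^ 2 ≤ Λ * ∑ x, ∑ y, T x y * (f x - f y) ^ 2) :
    φ ⬝ᵥ ((1 - w • (dg (univ \ A) * T))⁻¹ *ᵥ φ) ≤ 4 * Λ := by
  have hSS : Pool.Agent.Q68.LC.SS T := ⟨hT0, fun x => (hr x).le⟩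
  have hS := Pool.Agent.Q68.LC.SS_dg hSS (univ \ A)
  have hpos := Pool.Agent.Q68.LC.det_pos hS (by linarith : (0:ℝ) ≤ w) hw1
  obtain ⟨M, hM⟩ : ∃ M, M = 1 - w • (dg (univ \ A) * T) := ⟨_, rfl⟩
  rw [← hM] at hpos ⊢
  have hunit : IsUnit M.det := isUnit_iff_ne_zero.2 hpos.ne'
  obtain ⟨f, hf⟩ : ∃ f, f = M⁻¹ *ᵥ φ := ⟨_, rfl⟩
  rw [← hf]
  have hMf : M *ᵥ f = φ := by
    rw [hf, Matrix.mulVec_mulVec, Matrix.mul_nonsing_inv _ hunit, Matrix.one_mulVec]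
  have hrow : ∀ x, f x - w * ((if x ∈ univ \ A then 1 else 0) * (T *ᵥ f) x) = φ x := by
    intro x
    have h1 := congrFun hMf x
    rw [← h1, hM, Matrix.sub_mulVec, Pi.sub_apply, Matrix.one_mulVec, Matrix.smul_mulVec,
      Pi.smul_apply, smul_eq_mul, ← Matrix.mulVec_mulVec]
    unfold dg
    rw [Matrix.mulVec_diagonal]
  have hA : ∀ a ∈ A, f a = 0 := by
    intro a ha
    have h1 := hrow a
    rw [if_neg (by simp [ha]), zero_mul, mul_zero, sub_zero, hφ a ha] at h1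
    exact h1
  have hX : φ ⬝ᵥ f = ∑ x, f x ^ 2 - w * ∑ x, f x * (T *ᵥ f) x := by
    unfold dotProduct
    rw [Finset.mul_sum, ← Finset.sum_sub_distrib]
    refine Finset.sum_congr rfl fun x _ => ?_
    by_cases hx : x ∈ A
    · rw [hφ x hx, hA x hx]
      ring
    · have h1 := hrow x
      rw [if_pos (by simp [hx]), one_mul] at h1
      rw [← h1]
      ring
  have hEn : ∑ x, ∑ y, T x y * (f x - f y) ^ 2 = 2 * ∑ x, f x ^ 2 - 2 * ∑ x, f x * (T *ᵥ f) x := by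
    have e1 : ∀ x, ∑ y, T x y * (f x - f y) ^ 2 =
        f x ^ 2 + ∑ y, T x y * f y ^ 2 - 2 * (f x * (T *ᵥ f) x) := by
      intro x
      have : (T *ᵥ f) x = ∑ y, T x y * f y := rfl
      have h2 : ∑ y, T x y * f x ^ 2 = f x ^ 2 := by rw [← Finset.sum_mul, hr x, one_mul]
      rw [this, ← h2, Finset.mul_sum, Finset.mul_sum, ← Finset.sum_add_distrib,
        ← Finset.sum_sub_distrib]
      refine Finset.sum_congr rfl fun y _ => ?_
      ring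
    simp only [e1]
    rw [Finset.sum_sub_distrib, Finset.sum_add_distrib, Finset.sum_comm (f := fun x y => T x y * f y ^ 2)]
    simp only [← Finset.sum_mul, hc, one_mul, ← Finset.mul_sum]
    ring
  have hS2 : 0 ≤ ∑ x, f x ^ 2 := Finset.sum_nonneg fun x _ => sq_nonneg _
  have hE0 : 0 ≤ ∑ x, ∑ y, T x y * (f x - f y) ^ 2 :=
    Finset.sum_nonneg fun x _ => Finset.sum_nonneg fun y _ => mul_nonneg (hT0 x y) (sq_nonneg _)
  have hEf := hE f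
  obtain ⟨E, hEd⟩ : ∃ E, E = ∑ x, ∑ y, T x y * (f x - f y) ^ 2 := ⟨_, rfl⟩
  obtain ⟨X, hXd⟩ : ∃ X, X = φ ⬝ᵥ f := ⟨_, rfl⟩
  rw [← hEd] at hEf hE0 hEn
  rw [← hXd] at hEf hX ⊢
  have h1 : E / 4 ≤ X := by
    have : X = (1 - w) * ∑ x, f x ^ 2 + w / 2 * E := by
      rw [hEn, hX]
      ring
    rw [this]
    nlinarith
  by_contra hcon
  push Not at hcon
  have h2 : 0 < X := by nlinarith
  have h3 : X ^ 2 ≤ Λ * (4 * X) := hEf.trans (mul_le_mul_of_nonneg_left (by linarith) hΛ)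
  nlinarith

theorem eng : S_ENG := by
  intro V _ _ e ω A n δ w Λ φ h0 h1 hw hw1 hΛ hφ hE
  obtain ⟨b1, b2, b3, -, -, -⟩ := Pool.Agent.Q68.LC.bas2 V e ω A δ h0 h1
  exact eng_gen _ A w Λ φ (b1 n) (b2 n) (b3 n) hw hw1 hΛ hφ hE

end gen

end Pool.Agent.K9h51.LC
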