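import Pool.Agent.K9h51.LC.Dya
import Pool.Agent.K9h51.LC.Cnt
import Pool.Agent.Q257.LC.KerU
import Pool.Agent.Q151.LC.Nea
import Pool.Agent.Q151.LC.Con2
import Pool.Agent.Q187.LC.Tch

/-!
# Project LC: the damaged set and the resolvent form in a good environment (LAM)
-/

set_option autoImplicit false

namespace Pool.Agent.K9h51.LC

open Finset Equiv Matrix Q292.LC

/-- nat division by `r₁ / d` -/
theorem div_bound (d r₁ R : ℕ) (hd : 1 ≤ d) (hr : d ≤ r₁) :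
    ((R / (r₁ / d) : ℕ) : ℝ) ≤ 2 * d * R / r₁ := by
  have h1 : 1 ≤ r₁ / d := (Nat.one_le_div_iff (by omega)).2 hr
  have h2 : r₁ < d * (r₁ / d + 1) := Nat.lt_mul_div_succ r₁ (by omega)
  have h3 : (r₁ : ℝ) ≤ 2 * d * ((r₁ / d : ℕ) : ℝ) := by
    have h4 : r₁ ≤ 2 * d * (r₁ / d) := by nlinarith
    exact_mod_cast h4
  have hd0 : (0 : ℝ) < d := by exact_mod_cast hd
  have hr0 : (0 : ℝ) < r₁ := by exact_mod_cast (by omega : 0 < r₁)
  have h5 : (0 : ℝ) < ((r₁ / d : ℕ) : ℝ) := by exact_mod_cast h1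
  calc ((R / (r₁ / d) : ℕ) : ℝ) ≤ (R : ℝ) / ((r₁ / d : ℕ) : ℝ) := Nat.cast_div_le
    _ ≤ _ := by
      rw [div_le_div_iff₀ h5 hr0]
      have : (0 : ℝ) ≤ R := Nat.cast_nonneg _
      nlinarith

/-- the number of points of a sparse set in a large ball -/
theorem count_bound {d L : ℕ} [NeZero L] (hd : 1 ≤ d) (hL : 3 ≤ L)
    (S : Finset (Fin d → ZMod L)) (r₁ R lam : ℕ) (hr : d ≤ r₁)
    (hS : ∀ v, (S ∩ bal v r₁).card ≤ lam) (Z κ c₁ : ℝ) (hlam : (lam : ℝ) ≤ Z) (hZ : 1 ≤ Z)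
    (hκ : 1 ≤ κ) (hc₁ : 1 ≤ c₁) (hR : (R : ℝ) ≤ c₁ * (κ ^ 4 * Z)) (hr1 : (r₁ : ℝ) ≤ κ ^ 4 * Z)
    (hr2 : κ ^ 9 ≤ 2 ^ d * (r₁ : ℝ) ^ d) (z : Fin d → ZMod L) :
    ((S ∩ bal z R).card : ℝ) ≤ (4 * d * c₁ + 3) ^ d * 2 ^ d * Z ^ (d + 1) * (κ ^ (4 * d) / κ ^ 9) := by
  have h1 := cnt d L hd hL S r₁ R lam hr hS z
  have hd0 : (0 : ℝ) < d := by exact_mod_cast hd
  have hr0 : (0 : ℝ) < r₁ := by exact_mod_cast (by omega : 0 < r₁)
  have h2 : (2 * ((R / (r₁ / d) : ℕ) : ℝ) + 3) ≤ (4 * d * c₁ + 3) * (κ ^ 4 * Z) / r₁ := by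
    have h3 := div_bound d r₁ R hd hr
    have h4 : 2 * d * (R : ℝ) / r₁ ≤ 2 * d * (c₁ * (κ ^ 4 * Z)) / r₁ := by gcongr
    have h5 : 3 ≤ 3 * (κ ^ 4 * Z) / r₁ := by
      rw [le_div_iff₀ hr0]
      linarith
    calc 2 * ((R / (r₁ / d) : ℕ) : ℝ) + 3 ≤ 2 * (2 * d * (c₁ * (κ ^ 4 * Z)) / r₁) +
          3 * (κ ^ 4 * Z) / r₁ := by linarith
      _ = _ := by ring
  calc ((S ∩ bal z R).card : ℝ) ≤ (lam : ℝ) * (2 * ((R / (r₁ / d) : ℕ) : ℝ) + 3) ^ d := by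
        exact_mod_cast h1
    _ ≤ Z * ((4 * d * c₁ + 3) * (κ ^ 4 * Z) / r₁) ^ d := by gcongr
    _ = (4 * d * c₁ + 3) ^ d * Z ^ (d + 1) * (κ ^ (4 * d) / (r₁ : ℝ) ^ d) := by
        rw [div_pow, mul_pow, mul_pow, pow_succ Z d, ← pow_mul]
        ring
    _ ≤ (4 * d * c₁ + 3) ^ d * Z ^ (d + 1) * (2 ^ d * (κ ^ (4 * d) / κ ^ 9)) := by
        have h6 : κ ^ (4 * d) / (r₁ : ℝ) ^ d ≤ 2 ^ d * (κ ^ (4 * d) / κ ^ 9) := by
          rw [← mul_div_assoc, div_le_div_iff₀ (by positivity) (by positivity)]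
          have h7 : 0 ≤ κ ^ (4 * d) := by positivity
          nlinarith
        gcongr
    _ = _ := by ring

theorem lam : S_LAM := by
  intro d hd
  have hd1 : 1 ≤ d := by omega
  obtain ⟨Cf, hCf, hfre⟩ := Pool.Agent.Q257.LC.fre d hd1
  obtain ⟨CD, hCD, hdya⟩ := dya d hd
  have hd0 : (0 : ℝ) < d := by exact_mod_cast hd1
  have hlog : 0 ≤ Real.log Cf := Real.log_nonneg hCf
  obtain ⟨ε, hε⟩ : ∃ ε : ℝ, ε = 1 / (8 * (Cf * (4 * d * Cf) ^ d)) := ⟨_, rfl⟩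
  have hε0 : 0 < ε := by rw [hε]; positivity
  obtain ⟨c₁, hc₁⟩ : ∃ c₁ : ℝ, c₁ = Cf * (1 + Real.log Cf) + 4 := ⟨_, rfl⟩
  have hc₁1 : 1 ≤ c₁ := by
    rw [hc₁]
    have : 0 ≤ Cf * (1 + Real.log Cf) := by positivity
    linarith
  obtain ⟨c₂, hc₂⟩ : ∃ c₂ : ℝ, c₂ = (4 * d * c₁ + 3) ^ d * 2 ^ d := ⟨_, rfl⟩
  have hc₂0 : 0 < c₂ := by rw [hc₂]; positivity
  obtain ⟨c₃, hc₃⟩ : ∃ c₃ : ℝ, c₃ = (8 + 16 * d) * (c₂ + 1) / ε + c₂ := ⟨_, rfl⟩
  have hc₃0 : 0 < c₃ := by rw [hc₃]; positivity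
  obtain ⟨C, hC⟩ := exists_nat_ge (max (max (8 * d * Cf) (64 * CD * Cf)) (max (c₃ * 2 ^ d) (4 * Cf)))
  have hCa : 8 * d * Cf ≤ C := (le_max_left _ _).trans ((le_max_left _ _).trans hC)
  have hCb : 64 * CD * Cf ≤ C := (le_max_right _ _).trans ((le_max_left _ _).trans hC)
  have hCc : c₃ * 2 ^ d ≤ C := (le_max_left _ _).trans ((le_max_right _ _).trans hC)
  have hCd : 4 * Cf ≤ C := (le_max_right _ _).trans ((le_max_right _ _).trans hC)
  have hC4 : (4 : ℝ) ≤ C := by nlinarith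
  have hC1 : 1 ≤ C := by
    have : (1 : ℝ) ≤ C := by linarith
    exact_mod_cast this
  refine ⟨C, ε, hC1, hε0, ?_⟩
  intro h hh Z hZ η hη0 hη L K lam r₁ ρ κ₀ _ hlam hρ hLZ hL3 hKL hdr₁ hK9 hr₁K hbig
  have hhC : (C : ℝ) ≤ h := by exact_mod_cast hh
  have hh0 : (0 : ℝ) < h := by linarith
  have hh1 : (1 : ℝ) ≤ h := by linarith
  have hZr : (1 : ℝ) ≤ Z := by exact_mod_cast hZ
  -- κ = K^(1/8)
  obtain ⟨κ, hκd⟩ : ∃ κ : ℝ, κ = (K : ℝ) ^ (1 / 8 : ℝ) := ⟨_, rfl⟩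
  have hK0 : (0 : ℝ) ≤ K := Nat.cast_nonneg _
  have hκ0 : 0 ≤ κ := by rw [hκd]; positivity
  have hκ8 : κ ^ 8 = K := by
    rw [hκd, ← Real.rpow_natCast, ← Real.rpow_mul hK0]
    norm_num
  have hbase : (C : ℝ) * (Z : ℝ) ^ (d + 2) * (h : ℝ) ^ d / η ≤ κ := by
    rw [← hκ8] at hbig
    exact le_of_pow_le_pow_left₀ (by norm_num) hκ0 hbig
  have hη1 : η ≤ 1 := by linarith
  have hκbig : (C : ℝ) * h ≤ κ := by
    refine le_trans ?_ hbase
    rw [le_div_iff₀ hη0]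
    have h1 : (1 : ℝ) ≤ (Z : ℝ) ^ (d + 2) := one_le_pow₀ hZr
    have h2 : (h : ℝ) ≤ (h : ℝ) ^ d := le_self_pow₀ hh1 (by omega)
    calc (C : ℝ) * h * η ≤ C * h * 1 := by gcongr
      _ = C * 1 * h := by ring
      _ ≤ (C : ℝ) * (Z : ℝ) ^ (d + 2) * (h : ℝ) ^ d := by gcongr
  have hκ1 : 1 ≤ κ := by nlinarith
  have hκ4 : κ ≤ κ ^ 4 := le_self_pow₀ hκ1 (by norm_num)
  have hsK : Real.sqrt K = κ ^ 4 := by
    rw [← hκ8, show κ ^ 8 = (κ ^ 4) ^ 2 by ring, Real.sqrt_sq (by positivity)]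
  have hKd : (K : ℝ) ^ (d / 2 : ℝ) = κ ^ (4 * d) := by
    rw [← hκ8, ← Real.rpow_natCast, ← Real.rpow_mul hκ0, ← Real.rpow_natCast]
    congr 1
    push_cast
    ring
  have hK1 : 1 ≤ K := by
    have : (1 : ℝ) ≤ K := by
      rw [← hκ8]
      exact one_le_pow₀ hκ1
    exact_mod_cast this
  have hκL : κ ^ 4 ≤ L := by
    rw [← hsK]
    rw [Real.sqrt_le_left (by positivity)]
    exact_mod_cast hKL
  -- the radius
  obtain ⟨q₀, hq₀⟩ := hfre L hL3 K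
  obtain ⟨q₁, hq₁⟩ : ∃ q₁, q₁ = max q₀ (max (4 * d) 2) := ⟨_, rfl⟩
  refine ⟨q₁, fun q hq σ hσ δ hδ1 hδ2 ω A hG r hr Dm hDm => ?_⟩
  have hq0 : q₀ ≤ q := (le_max_left _ _).trans (hq₁ ▸ hq)
  have hq4 : 4 * d ≤ q := (le_max_left _ _).trans ((le_max_right _ _).trans (hq₁ ▸ hq))
  have hq2 : 2 ≤ q := (le_max_right _ _).trans ((le_max_right _ _).trans (hq₁ ▸ hq))
  obtain ⟨-, hfb, hfc⟩ := hq₀ q hq0 σ hσ δ hδ1 hδ2
  have hqr : (0 : ℝ) < q := by exact_mod_cast (by omega : 0 < q)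
  have hδ0 : 0 < δ := by
    by_contra hcon
    push Not at hcon
    nlinarith
  have hδd : 2 * d * δ ≤ 1 := by
    have h1 : (4 * d : ℝ) ≤ q := by exact_mod_cast hq4
    nlinarith
  have hδle : δ ≤ 1 := by
    have h1 : (1 : ℝ) ≤ d := by exact_mod_cast hd1
    nlinarith
  have hrle : (r : ℝ) ≤ κ ^ 4 / h := by
    rw [hr]
    calc ((Nat.sqrt K / h : ℕ) : ℝ) ≤ (Nat.sqrt K : ℝ) / h := Nat.cast_div_le
      _ ≤ Real.sqrt K / h := by
        have := Real.nat_sqrt_le_real_sqrt (a := K)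
        gcongr
      _ = _ := by rw [hsK]
  have hsqK : (h : ℝ) ≤ Nat.sqrt K := by
    have h1 : h ≤ Nat.sqrt K := by
      rw [Nat.le_sqrt']
      have h2 : ((h : ℝ)) ^ 2 ≤ K := by
        rw [← hκ8]
        have h3 : (h : ℝ) ≤ κ ^ 4 := by nlinarith
        calc (h : ℝ) ^ 2 ≤ (κ ^ 4) ^ 2 := by gcongr
          _ = κ ^ 8 := by ring
      exact_mod_cast h2
    exact_mod_cast h1
  have hhn : 0 < h := by exact_mod_cast hh0
  have hr1 : 1 ≤ r := by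
    rw [hr]
    exact (Nat.one_le_div_iff hhn).2 (by exact_mod_cast hsqK)
  have hr0 : (0 : ℝ) < r := by exact_mod_cast hr1
  have hr1' : (1 : ℝ) ≤ r := by exact_mod_cast hr1
  have hr2 : κ ^ 4 ≤ 2 * h * r := by
    have h1 : Nat.sqrt K < h * (r + 1) := by
      rw [hr]
      exact Nat.lt_mul_div_succ _ hhn
    have h2 : Nat.sqrt K + 1 ≤ h * (r + 1) := h1
    have h3 : ((Nat.sqrt K : ℝ)) + 1 ≤ h * (r + 1) := by exact_mod_cast h2
    have h4 : Real.sqrt K ≤ (Nat.sqrt K : ℝ) + 1 := Real.real_sqrt_le_nat_sqrt_succ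
    rw [hsK] at h4
    nlinarith
  have h4r : 4 * r ≤ L := by
    have h1 : (4 * r : ℝ) ≤ L := by
      have h2 : (r : ℝ) * h ≤ κ ^ 4 := by
        rwa [le_div_iff₀ hh0] at hrle
      nlinarith
    exact_mod_cast h1
  -- the ball
  obtain ⟨ℓ, hℓ⟩ : ∃ ℓ : ℕ, ℓ = ⌊κ ^ 4 / (2 * Cf)⌋₊ := ⟨_, rfl⟩
  have hℓ1 : (ℓ : ℝ) ≤ κ ^ 4 / (2 * Cf) := by
    rw [hℓ]
    exact Nat.floor_le (by positivity)
  have hℓ2 : κ ^ 4 / (4 * Cf) ≤ ℓ := by
    have h1 : κ ^ 4 / (2 * Cf) < ℓ + 1 := by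
      rw [hℓ]
      exact Nat.lt_floor_add_one _
    have h2 : 1 ≤ κ ^ 4 / (4 * Cf) := by
      rw [le_div_iff₀ (by positivity)]
      nlinarith
    have h3 : κ ^ 4 / (2 * Cf) = 2 * (κ ^ 4 / (4 * Cf)) := by
      field_simp
      ring
    linarith
  have h2dr : 2 * d * r ≤ ℓ := by
    have h1 : (2 * d * r : ℝ) ≤ ℓ := by
      refine le_trans ?_ hℓ2
      rw [le_div_iff₀ (by positivity)]
      have h2 : (r : ℝ) * h ≤ κ ^ 4 := by
        rwa [le_div_iff₀ hh0] at hrle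
      have h3 : 8 * d * Cf ≤ h := hCa.trans hhC
      calc 2 * d * r * (4 * Cf) = (8 * d * Cf) * r := by ring
        _ ≤ h * r := by gcongr
        _ ≤ κ ^ 4 := by linarith
    exact_mod_cast h1
  obtain ⟨p, hp⟩ : ∃ p : ℝ, p = (K : ℝ) ^ (-(d / 2 : ℝ)) / Cf := ⟨_, rfl⟩
  have hp' : p = 1 / (κ ^ (4 * d) * Cf) := by
    rw [hp, Real.rpow_neg hK0, hKd]
    field_simp
  have hp0 : 0 < p := by rw [hp']; positivity
  have hPP : ∀ x y : Fin d → ZMod L, td x y ≤ 2 * ℓ →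
      p ≤ PP (ed ∘ σ) δ (K * (q * ms d L)) x y := by
    intro x y hxy
    rw [hp]
    refine hfc K hK1 le_rfl hKL x y ?_
    rw [hsK]
    have h1 : ((td x y : ℕ) : ℝ) ≤ 2 * ℓ := by exact_mod_cast hxy
    refine h1.trans ?_
    calc 2 * (ℓ : ℝ) ≤ 2 * (κ ^ 4 / (2 * Cf)) := by linarith
      _ = κ ^ 4 / Cf := by field_simp
  have hbal : 8 * ε ≤ p * (bal (0 : Fin d → ZMod L) ℓ).card := by
    have h1 : ℓ / d < L := by
      have h2 : ((ℓ / d : ℕ) : ℝ) < L := by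
        calc ((ℓ / d : ℕ) : ℝ) ≤ (ℓ : ℝ) := by exact_mod_cast Nat.div_le_self ℓ d
          _ ≤ κ ^ 4 / (2 * Cf) := hℓ1
          _ ≤ κ ^ 4 / 2 := by
              apply div_le_div_of_nonneg_left (by positivity) (by norm_num)
              linarith
          _ < κ ^ 4 := by
              have : 0 < κ ^ 4 := by positivity
              linarith
          _ ≤ L := hκL
      exact_mod_cast h2
    have h2 := Pool.Agent.Q257.LC.card_bal_ge (d := d) (L := L) ℓ (ℓ / d) (Nat.mul_div_le ℓ d) h1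
    have h3 : (κ ^ 4 / (4 * d * Cf)) ^ d ≤ ((bal (0 : Fin d → ZMod L) ℓ).card : ℝ) := by
      have h4 : (((ℓ / d : ℕ) : ℝ) + 1) ^ d ≤ ((bal (0 : Fin d → ZMod L) ℓ).card : ℝ) := by
        exact_mod_cast h2
      refine le_trans ?_ h4
      refine pow_le_pow_left₀ (by positivity) ?_ d
      have h5 : ℓ < d * (ℓ / d + 1) := Nat.lt_mul_div_succ ℓ (by omega)
      have h6 : (ℓ : ℝ) ≤ d * (((ℓ / d : ℕ) : ℝ) + 1) := by exact_mod_cast h5.le
      have h7 : κ ^ 4 / (4 * d * Cf) = κ ^ 4 / (4 * Cf) / d := by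
        field_simp
      rw [h7, div_le_iff₀ hd0]
      linarith
    calc 8 * ε = 1 / (κ ^ (4 * d) * Cf) * (κ ^ 4 / (4 * d * Cf)) ^ d := by
          rw [hε, div_pow, ← pow_mul]
          field_simp
      _ ≤ p * (bal (0 : Fin d → ZMod L) ℓ).card := by
          rw [← hp']
          exact mul_le_mul_of_nonneg_left h3 hp0.le
  -- the damaged set
  obtain ⟨hv, hj, -⟩ := hG
  have hviol : ∀ j < K, ∀ v, ((A.image (gp (ed ∘ σ) ω (j * (q * ms d L)))) ∩ bal v r₁).card ≤ lam := by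
    intro j hjK v
    by_contra hcon
    exact hv ⟨j, hjK, v, not_le.1 hcon⟩
  have hlamZ : (lam : ℝ) ≤ Z := by exact_mod_cast hlam
  have hr₁' : (r₁ : ℝ) ≤ κ ^ 4 * Z := by
    have h1 : ((r₁ : ℝ)) ^ 2 ≤ (κ ^ 4 * Z) ^ 2 := by
      have h2 : ((r₁ : ℝ)) ^ 2 ≤ K * (Z : ℝ) ^ 2 := by exact_mod_cast hr₁K
      rw [mul_pow, ← pow_mul]
      rw [hκ8]
      exact h2
    exact le_of_pow_le_pow_left₀ (by norm_num) (by positivity) h1
  have hκ9 : κ ^ 9 ≤ 2 ^ d * (r₁ : ℝ) ^ d := by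
    have h1 : (κ ^ 9) ^ 8 ≤ (2 ^ d * (r₁ : ℝ) ^ d) ^ 8 := by
      have h2 : ((K : ℝ)) ^ 9 ≤ (2 * (r₁ : ℝ)) ^ (8 * d) := by exact_mod_cast hK9
      calc (κ ^ 9) ^ 8 = (κ ^ 8) ^ 9 := by ring
        _ = (K : ℝ) ^ 9 := by rw [hκ8]
        _ ≤ (2 * (r₁ : ℝ)) ^ (8 * d) := h2
        _ = _ := by
          rw [← mul_pow, ← pow_mul]
          congr 1
          ring
    exact le_of_pow_le_pow_left₀ (by norm_num) (by positivity) h1
  obtain ⟨D, hDdef⟩ : ∃ D : ℕ, D = ⌈Cf * κ ^ 4 * (Z + Real.log Cf)⌉₊ := ⟨_, rfl⟩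
  have hD1 : Cf * κ ^ 4 * (Z + Real.log Cf) ≤ D := by
    rw [hDdef]
    exact Nat.le_ceil _
  have hD2 : (D : ℝ) ≤ Cf * κ ^ 4 * (Z + Real.log Cf) + 1 := by
    rw [hDdef]
    exact (Nat.ceil_lt_add_one (by positivity)).le
  obtain ⟨R, hRdef⟩ : ∃ R : ℕ, R = d * r + D + ρ + 1 := ⟨_, rfl⟩
  have hκ41 : 1 ≤ κ ^ 4 := one_le_pow₀ hκ1
  have hR : (R : ℝ) ≤ c₁ * (κ ^ 4 * Z) := by
    rw [hRdef]
    push_cast
    have h1 : (d : ℝ) * r ≤ κ ^ 4 * Z := by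
      have h2 : (r : ℝ) * h ≤ κ ^ 4 := by
        rwa [le_div_iff₀ hh0] at hrle
      have h3 : (d : ℝ) ≤ h := by nlinarith
      calc (d : ℝ) * r ≤ h * r := by gcongr
        _ ≤ κ ^ 4 * 1 := by linarith
        _ ≤ _ := by gcongr
    have h2 : (ρ : ℝ) ≤ κ ^ 4 * Z := by
      have : (ρ : ℝ) ≤ Z := by exact_mod_cast hρ
      calc (ρ : ℝ) ≤ 1 * Z := by linarith
        _ ≤ _ := by gcongr
    have h3 : 1 ≤ κ ^ 4 * Z := by nlinarith
    have h4 : Cf * κ ^ 4 * (Z + Real.log Cf) ≤ Cf * (1 + Real.log Cf) * (κ ^ 4 * Z) := by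
      have h5 : Z + Real.log Cf ≤ (1 + Real.log Cf) * Z := by nlinarith
      calc Cf * κ ^ 4 * (Z + Real.log Cf) ≤ Cf * κ ^ 4 * ((1 + Real.log Cf) * Z) := by gcongr
        _ = _ := by ring
    rw [hc₁]
    linarith
  have hcnt : ∀ j < K, ∀ v, (((A.image (gp (ed ∘ σ) ω (j * (q * ms d L)))) ∩ bal v R).card : ℝ) ≤
      c₂ * (Z : ℝ) ^ (d + 1) * (κ ^ (4 * d) / κ ^ 9) := by
    intro j hjK v
    have h1 := count_bound hd1 hL3 _ r₁ R lam hdr₁ (hviol j hjK) Z κ c₁ hlamZ hZr hκ1 hc₁1 hR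
      hr₁' hκ9 v
    rw [hc₂]
    exact h1
  obtain ⟨W, hW⟩ : ∃ W : ℝ, W = (Z : ℝ) ^ (d + 2) * (κ ^ (4 * d) / κ) := ⟨_, rfl⟩
  have hW0 : 0 ≤ W := by rw [hW]; positivity
  -- the first bound implies a weaker one
  have hcnt0 : ∀ v, ((A ∩ bal v R).card : ℝ) ≤ c₂ * W := by
    intro v
    have h1 := hcnt 0 (by omega) v
    have h2 : A.image (gp (ed ∘ σ) ω (0 * (q * ms d L))) = A := by
      rw [zero_mul]
      unfold gp
      simp
    rw [h2] at h1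
    refine h1.trans ?_
    rw [hW, mul_assoc]
    refine mul_le_mul_of_nonneg_left ?_ hc₂0.le
    have h3 : (Z : ℝ) ^ (d + 1) ≤ (Z : ℝ) ^ (d + 2) := pow_le_pow_right₀ hZr (by omega)
    have h4 : κ ^ (4 * d) / κ ^ 9 ≤ κ ^ (4 * d) / κ := by
      apply div_le_div_of_nonneg_left (by positivity) (by positivity)
      exact le_self_pow₀ hκ1 (by norm_num)
    gcongr
  have hτ : ∀ k ≤ K * (q * ms d L), ∀ y : Fin d → ZMod L, ∑ x ∈ univ.filter (fun x => D < td x y),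
      PP (ed ∘ σ) δ k x y ≤ Real.exp (-(Z : ℝ)) := by
    intro k hk y
    refine (hfb K hK1 le_rfl k hk D y).trans ?_
    have h1 : Cf = Real.exp (Real.log Cf) := (Real.exp_log (by linarith)).symm
    calc Cf * Real.exp (-(D / (Cf * Real.sqrt K)))
        = Real.exp (Real.log Cf + -(D / (Cf * Real.sqrt K))) := by
          rw [Real.exp_add, ← h1]
      _ ≤ Real.exp (-(Z : ℝ)) := by
          refine Real.exp_le_exp.2 ?_
          have h2 : Z + Real.log Cf ≤ D / (Cf * Real.sqrt K) := by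
            rw [hsK, le_div_iff₀ (by positivity)]
            linarith
          linarith
  have hcon := Pool.Agent.Q151.LC.con2 Pool.Agent.Q187.LC.Tch.tch d L hd1 hL3 σ hσ ω A δ
    (Real.exp (-(Z : ℝ))) q K ρ (d * r) D
  have hbox : ∀ v : Fin d → ZMod L, ((Dm ∩ box v r).card : ℝ) ≤ η * (r : ℝ) ^ d := by
    intro v
    have h1 := hcon v hδ0 hδd hδ2 (Real.exp_pos _).le hj hτ
    rw [← hRdef] at h1
    have h2 : (8 * (ρ : ℝ) + 16 * d) * ∑ j ∈ Finset.range K,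
        ((((A.image (gp (ed ∘ σ) ω (j * (q * ms d L)))) ∩ bal v R).card : ℝ) +
          Real.exp (-(Z : ℝ)) * A.card) ≤ (8 + 16 * d) * (c₂ + 1) * W := by
      have h3 : Real.exp (-(Z : ℝ)) * A.card ≤ 1 := by
        have h4 : (A.card : ℝ) ≤ (L : ℝ) ^ d := by
          rw [← card_V (d := d) (L := L)]
          exact_mod_cast Finset.card_le_univ _
        rw [Real.exp_neg, inv_mul_le_iff₀ (Real.exp_pos _), mul_one]
        exact h4.trans hLZ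
      have h4 : ∑ j ∈ Finset.range K,
          ((((A.image (gp (ed ∘ σ) ω (j * (q * ms d L)))) ∩ bal v R).card : ℝ) +
          Real.exp (-(Z : ℝ)) * A.card) ≤ (c₂ + 1) * ((Z : ℝ) ^ (d + 1) * (κ ^ (4 * d) / κ)) := by
        calc _ ≤ ∑ _j ∈ Finset.range K, (c₂ * (Z : ℝ) ^ (d + 1) * (κ ^ (4 * d) / κ ^ 9) + 1) :=
              Finset.sum_le_sum fun j hj => add_le_add (hcnt j (Finset.mem_range.1 hj) v) h3
          _ = κ ^ 8 * (c₂ * (Z : ℝ) ^ (d + 1) * (κ ^ (4 * d) / κ ^ 9) + 1) := by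
              rw [Finset.sum_const, Finset.card_range, nsmul_eq_mul, hκ8]
          _ = c₂ * ((Z : ℝ) ^ (d + 1) * (κ ^ (4 * d) / κ)) + κ ^ 8 := by
              field_simp
          _ ≤ c₂ * ((Z : ℝ) ^ (d + 1) * (κ ^ (4 * d) / κ)) +
              1 * ((Z : ℝ) ^ (d + 1) * (κ ^ (4 * d) / κ)) := by
              have h5 : κ ^ 8 ≤ κ ^ (4 * d) / κ := by
                rw [le_div_iff₀ (by positivity), ← pow_succ]
                exact pow_le_pow_right₀ hκ1 (by omega)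
              have h6 : (1 : ℝ) ≤ (Z : ℝ) ^ (d + 1) := one_le_pow₀ hZr
              have h7 : κ ^ 8 ≤ (Z : ℝ) ^ (d + 1) * (κ ^ (4 * d) / κ) := by
                calc κ ^ 8 = 1 * κ ^ 8 := by ring
                  _ ≤ _ := by gcongr
              linarith
          _ = _ := by ring
      have h5 : (8 * (ρ : ℝ) + 16 * d) ≤ (8 + 16 * d) * Z := by
        have : (ρ : ℝ) ≤ Z := by exact_mod_cast hρ
        nlinarith
      calc _ ≤ ((8 + 16 * d) * (Z : ℝ)) * ((c₂ + 1) * ((Z : ℝ) ^ (d + 1) * (κ ^ (4 * d) / κ))) := by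
            refine mul_le_mul h5 h4 ?_ (by positivity)
            refine Finset.sum_nonneg fun j _ => ?_
            positivity
        _ = _ := by
            rw [hW, pow_succ (Z : ℝ) (d + 1)]
            ring
    have h3 : (((box v r).filter fun x => ε < cc (ed ∘ σ) ω A δ (K * (q * ms d L)) x).card : ℝ) * ε ≤
        (8 + 16 * d) * (c₂ + 1) * W := by
      calc _ ≤ ∑ x ∈ (box v r).filter fun x => ε < cc (ed ∘ σ) ω A δ (K * (q * ms d L)) x,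
            cc (ed ∘ σ) ω A δ (K * (q * ms d L)) x := by
            rw [← nsmul_eq_mul]
            exact Finset.card_nsmul_le_sum _ _ _ fun x hx => (Finset.mem_filter.1 hx).2.le
        _ ≤ ∑ x ∈ bal v (d * r), cc (ed ∘ σ) ω A δ (K * (q * ms d L)) x := by
            refine Finset.sum_le_sum_of_subset_of_nonneg ?_ fun x _ _ => ?_
            · intro x hx
              exact Pool.Agent.Q257.LC.box_sub v r (Finset.mem_filter.1 hx).1
            · exact (Finset.sum_nonneg fun y _ => abs_nonneg _).trans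
                (Pool.Agent.Q151.LC.con1 _ (ed ∘ σ) ω A δ (K * (q * ms d L)) x hδ0.le hδle)
        _ ≤ _ := h1.trans h2
    have h4 : Dm ∩ box v r ⊆ ((box v r).filter fun x => ε < cc (ed ∘ σ) ω A δ (K * (q * ms d L)) x) ∪
        (A ∩ bal v R) := by
      intro x hx
      rw [Finset.mem_inter] at hx
      rw [Finset.mem_union, Finset.mem_filter, Finset.mem_inter]
      have h5 := hx.1
      rw [hDm] at h5
      unfold Dmg at h5
      rw [Finset.mem_filter] at h5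
      rcases h5.2 with h6 | h6
      · right
        refine ⟨h6, ?_⟩
        exact Pool.Agent.Q257.LC.bal_mono v (by rw [hRdef]; omega)
          (Pool.Agent.Q257.LC.box_sub v r hx.2)
      · left
        exact ⟨hx.2, h6⟩
    have h5 : ((Dm ∩ box v r).card : ℝ) ≤ c₃ * W := by
      have h6 := (Finset.card_le_card h4).trans (Finset.card_union_le _ _)
      have h7 : ((Dm ∩ box v r).card : ℝ) ≤
          (((box v r).filter fun x => ε < cc (ed ∘ σ) ω A δ (K * (q * ms d L)) x).card : ℝ) +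
            ((A ∩ bal v R).card : ℝ) := by exact_mod_cast h6
      have h8 : (((box v r).filter fun x => ε < cc (ed ∘ σ) ω A δ (K * (q * ms d L)) x).card : ℝ) ≤
          (8 + 16 * d) * (c₂ + 1) / ε * W := by
        rw [← le_div_iff₀ hε0] at h3
        refine h3.trans (le_of_eq ?_)
        ring
      rw [hc₃, add_mul]
      linarith [hcnt0 v]
    refine h5.trans ?_
    have h6 : (κ ^ 4 / (2 * h)) ^ d ≤ (r : ℝ) ^ d := by
      refine pow_le_pow_left₀ (by positivity) ?_ d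
      rw [div_le_iff₀ (by positivity)]
      linarith
    have h7 : c₃ * W ≤ η * (κ ^ 4 / (2 * h)) ^ d := by
      rw [hW, div_pow, ← pow_mul, mul_pow]
      have h8 : c₃ * (Z : ℝ) ^ (d + 2) * (2 ^ d * (h : ℝ) ^ d) ≤ η * κ := by
        have h9 : (C : ℝ) * (Z : ℝ) ^ (d + 2) * (h : ℝ) ^ d ≤ κ * η := by
          rwa [div_le_iff₀ hη0] at hbase
        calc c₃ * (Z : ℝ) ^ (d + 2) * (2 ^ d * (h : ℝ) ^ d) =
              (c₃ * 2 ^ d) * (Z : ℝ) ^ (d + 2) * (h : ℝ) ^ d := by ring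
          _ ≤ C * (Z : ℝ) ^ (d + 2) * (h : ℝ) ^ d := by gcongr
          _ ≤ κ * η := h9
          _ = _ := by ring
      have h10 : c₃ * ((Z : ℝ) ^ (d + 2) * (κ ^ (4 * d) / κ)) =
          (c₃ * (Z : ℝ) ^ (d + 2)) * (κ ^ (4 * d) / κ) := by ring
      rw [h10, ← mul_div_assoc, ← mul_div_assoc, div_le_div_iff₀ (by positivity) (by positivity)]
      calc c₃ * (Z : ℝ) ^ (d + 2) * κ ^ (4 * d) * (2 ^ d * (h : ℝ) ^ d) =
            (c₃ * (Z : ℝ) ^ (d + 2) * (2 ^ d * (h : ℝ) ^ d)) * κ ^ (4 * d) := by ring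
        _ ≤ (η * κ) * κ ^ (4 * d) := by gcongr
        _ = _ := by ring
    exact h7.trans (mul_le_mul_of_nonneg_left h6 hη0.le)
  refine ⟨hr1, h4r, by rw [hsK]; exact hr2, hbox, ?_⟩
  -- the resolvent form
  intro z w hw hw1
  have hDm2 : ∀ v : Fin d → ZMod L, 2 * (Dm ∩ box v r).card ≤ r ^ d := by
    intro v
    have h1 := hbox v
    have h2 : (2 * (Dm ∩ box v r).card : ℝ) ≤ (r : ℝ) ^ d := by
      have h3 : η * (r : ℝ) ^ d ≤ 1 / 2 * (r : ℝ) ^ d := by gcongr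
      linarith
    exact_mod_cast h2
  have hDmA : ∀ x, x ∉ Dm → x ∉ A ∧ cc (ed ∘ σ) ω A δ (K * (q * ms d L)) x ≤ ε := by
    intro x hx
    rw [hDm] at hx
    unfold Dmg at hx
    rw [Finset.mem_filter] at hx
    push Not at hx
    exact hx (Finset.mem_univ x)
  have hphz : ∀ a ∈ A, phz r Dm z a = 0 := by
    intro a ha
    have h1 : a ∈ Dm := by
      by_contra hcon
      exact (hDmA a hcon).1 ha
    have h2 : ∀ z', chi r Dm z' a = 0 := by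
      intro z'
      unfold chi
      rw [if_neg]
      simp [h1]
    unfold phz
    simp only [h2, Finset.sum_const_zero, zero_div, sub_zero]
  have hfin := eng (Fin d → ZMod L) (ed ∘ σ) ω A (K * (q * ms d L)) δ w
    (CD / (r : ℝ) ^ (2 * d) * (16 / p)) (phz r Dm z) hδ0.le hδle hw hw1 (by positivity) hphz ?_
  · refine hfin.trans ?_
    rw [hKd]
    have h1 : 4 * (CD / (r : ℝ) ^ (2 * d) * (16 / p)) = (64 * CD * Cf) * κ ^ (4 * d) / (r : ℝ) ^ (2 * d) := by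
      rw [hp']
      field_simp
      ring
    rw [h1]
    gcongr
  · intro f
    refine (hdya L r hr1 h4r Dm hDm2 f z).trans ?_
    have h1 := (Pool.Agent.Q151.LC.nea d L hd1 hL3 σ hσ ω A Dm δ ε p (K * (q * ms d L)) ℓ hδ0.le
      hδle hp0 hε0.le hPP hDmA hbal f).2
    rw [mul_assoc (CD / (r : ℝ) ^ (2 * d))]
    refine mul_le_mul_of_nonneg_left ?_ (by positivity)
    have h2 : ∑ x, ∑ y, (if x ∉ Dm ∧ y ∉ Dm ∧ td x y ≤ 2 * d * r then (f x - f y) ^ 2 else 0) ≤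
        ∑ x, ∑ y, (if x ∉ Dm ∧ y ∉ Dm ∧ td x y ≤ ℓ then (f x - f y) ^ 2 else 0) := by
      refine Finset.sum_le_sum fun x _ => Finset.sum_le_sum fun y _ => ?_
      by_cases hc : x ∉ Dm ∧ y ∉ Dm ∧ td x y ≤ 2 * d * r
      · rw [if_pos hc, if_pos ⟨hc.1, hc.2.1, hc.2.2.trans h2dr⟩]
      · rw [if_neg hc]
        split_ifs
        · exact sq_nonneg _
        · exact le_rfl
    refine h2.trans ?_
    have h3 : ∀ X Y : ℝ, p / 16 * X ≤ Y → X ≤ 16 / p * Y := by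
      intro X Y hXY
      have : 16 / p * (p / 16 * X) = X := by field_simp
      rw [← this]
      exact mul_le_mul_of_nonneg_left hXY (by positivity)
    exact h3 _ _ h1

end Pool.Agent.K9h51.LC
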