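import Pool.Agent.K9h51.LC.Eng

/-!
# Project LC: resolvent bound for the unmarked cycles (RES)
-/

set_option autoImplicit false

namespace Pool.Agent.K9h51.LC

open Finset Equiv Matrix Q292.LC
open Pool.Agent.Q68.LC (EE_congr EE_const EE_add EE_smul EE_mono EE_succ)

section gen

variable {V : Type} [Fintype V] [DecidableEq V]

theorem pm_SS (g : Perm V) : Pool.Agent.Q68.LC.SS (pm g) := by
  refine ⟨fun x y => ?_, fun x => ?_⟩
  · unfold pm
    rw [Matrix.of_apply]
    split_ifs <;> norm_num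
  · unfold pm
    simp only [Matrix.of_apply]
    rw [Finset.sum_ite_eq, if_pos (Finset.mem_univ _)]

theorem mem_cyc (g : Perm V) (x y : V) : y ∈ cyc g x ↔ g.SameCycle x y := by
  unfold cyc
  simp

theorem cyc_eq (g : Perm V) (x y : V) (h : g.SameCycle x y) : cyc g x = cyc g y := by
  ext z
  rw [mem_cyc, mem_cyc]
  exact ⟨fun h2 => h.symm.trans h2, fun h2 => h.trans h2⟩

theorem card_cyc_pos (g : Perm V) (x : V) : 0 < (cyc g x).card :=
  Finset.card_pos.2 ⟨x, (mem_cyc g x x).2 (Perm.SameCycle.refl g x)⟩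

/-- sum over a cycle is invariant -/
theorem sum_cyc_shift (g : Perm V) (x : V) (f : V → ℝ) :
    ∑ y ∈ cyc g x, f (g y) = ∑ y ∈ cyc g x, f y := by
  refine Finset.sum_nbij' (fun y => g y) (fun y => g⁻¹ y) ?_ ?_ ?_ ?_ ?_
  · intro y hy
    rw [mem_cyc] at hy ⊢
    exact Perm.sameCycle_apply_right.2 hy
  · intro y hy
    rw [mem_cyc] at hy ⊢
    exact Perm.sameCycle_symm_apply_right.2 hy
  · intro y _
    simp
  · intro y _
    simp
  · intro y _
    rfl

/-- average over the cycles -/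
theorem sum_avg (g : Perm V) (U : Finset V) (hU : ∀ x y, g.SameCycle x y → (x ∈ U ↔ y ∈ U))
    (F : V → ℝ) :
    ∑ x ∈ U, (∑ y ∈ cyc g x, F y) / ((cyc g x).card : ℝ) = ∑ x ∈ U, F x := by
  have h1 : ∀ x ∈ U, (∑ y ∈ cyc g x, F y) / ((cyc g x).card : ℝ) =
      ∑ y ∈ U, if g.SameCycle x y then F y / ((cyc g y).card : ℝ) else 0 := by
    intro x hx
    rw [Finset.sum_div, ← Finset.sum_filter]
    have h2 : U.filter (fun y => g.SameCycle x y) = cyc g x := by
      ext y
      rw [Finset.mem_filter, mem_cyc]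
      exact ⟨fun h => h.2, fun h => ⟨(hU x y h).1 hx, h⟩⟩
    rw [h2]
    refine Finset.sum_congr rfl fun y hy => ?_
    rw [cyc_eq g x y ((mem_cyc g x y).1 hy)]
  rw [Finset.sum_congr rfl h1, Finset.sum_comm]
  refine Finset.sum_congr rfl fun y hy => ?_
  rw [← Finset.sum_filter, Finset.sum_const]
  have h2 : U.filter (fun x => g.SameCycle x y) = cyc g y := by
    ext x
    rw [Finset.mem_filter, mem_cyc]
    exact ⟨fun h => h.2.symm, fun h => ⟨(hU y x h).1 hy, h.symm⟩⟩
  rw [h2, nsmul_eq_mul]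
  have h3 : ((cyc g y).card : ℝ) ≠ 0 := by
    have := card_cyc_pos g y
    positivity
  field_simp

/-- lower bound of the resolvent form of a permutation -/
theorem res_perm (g : Perm V) (A : Finset V) (w : ℝ) (φ : V → ℝ) (hw : 0 ≤ w) (hw1 : w < 1)
    (hA : Inv g A) (hφ : ∀ a ∈ A, φ a = 0) :
    ∑ x ∈ univ \ A, ((∑ y ∈ cyc g x, φ y) / ((cyc g x).card : ℝ)) ^ 2 ≤
      (1 - w) * (φ ⬝ᵥ ((1 - w • (dg (univ \ A) * pm g))⁻¹ *ᵥ φ)) := by
  have hS := Pool.Agent.Q68.LC.SS_dg (pm_SS g) (univ \ A)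
  have hpos := Pool.Agent.Q68.LC.det_pos hS hw hw1
  obtain ⟨M, hM⟩ : ∃ M, M = 1 - w • (dg (univ \ A) * pm g) := ⟨_, rfl⟩
  rw [← hM] at hpos ⊢
  have hunit : IsUnit M.det := isUnit_iff_ne_zero.2 hpos.ne'
  obtain ⟨f, hf⟩ : ∃ f, f = M⁻¹ *ᵥ φ := ⟨_, rfl⟩
  rw [← hf]
  have hMf : M *ᵥ f = φ := by
    rw [hf, Matrix.mulVec_mulVec, Matrix.mul_nonsing_inv _ hunit, Matrix.one_mulVec]
  have hpf : ∀ x, (pm g *ᵥ f) x = f (g x) := by
    intro x
    unfold pm Matrix.mulVec dotProduct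
    simp only [Matrix.of_apply, ite_mul, one_mul, zero_mul]
    rw [Finset.sum_ite_eq, if_pos (Finset.mem_univ _)]
  have hrow : ∀ x, f x - w * ((if x ∈ univ \ A then 1 else 0) * f (g x)) = φ x := by
    intro x
    have h1 := congrFun hMf x
    rw [← h1, hM, Matrix.sub_mulVec, Pi.sub_apply, Matrix.one_mulVec, Matrix.smul_mulVec,
      Pi.smul_apply, smul_eq_mul, ← Matrix.mulVec_mulVec]
    unfold dg
    rw [Matrix.mulVec_diagonal, hpf]
  have hAf : ∀ a ∈ A, f a = 0 := by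
    intro a ha
    have h1 := hrow a
    rw [if_neg (by simp [ha]), zero_mul, mul_zero, sub_zero, hφ a ha] at h1
    exact h1
  have hUf : ∀ x, x ∉ A → φ x = f x - w * f (g x) := by
    intro x hx
    have h1 := hrow x
    rw [if_pos (by simp [hx]), one_mul] at h1
    exact h1.symm
  have hU : ∀ x y, g.SameCycle x y → (x ∈ univ \ A ↔ y ∈ univ \ A) := by
    intro x y hxy
    simp only [mem_sdiff, mem_univ, true_and]
    exact not_congr ⟨fun h => Pool.Agent.Q153.LC.inv_same g A hA x y h hxy,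
      fun h => Pool.Agent.Q153.LC.inv_same g A hA y x h hxy.symm⟩
  -- the squares of the cycle means
  have h1 : ∑ x ∈ univ \ A, ((∑ y ∈ cyc g x, φ y) / ((cyc g x).card : ℝ)) ^ 2 ≤
      (1 - w) ^ 2 * ∑ x ∈ univ \ A, f x ^ 2 := by
    rw [← sum_avg g (univ \ A) hU (fun x => f x ^ 2), Finset.mul_sum]
    refine Finset.sum_le_sum fun x hx => ?_
    have hxA : x ∉ A := by simpa using hx
    have h2 : ∑ y ∈ cyc g x, φ y = (1 - w) * ∑ y ∈ cyc g x, f y := by
      have h3 : ∀ y ∈ cyc g x, φ y = f y - w * f (g y) := by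
        intro y hy
        have h4 := (hU x y ((mem_cyc g x y).1 hy)).1 hx
        exact hUf y (by simpa using h4)
      rw [Finset.sum_congr rfl h3, Finset.sum_sub_distrib, ← Finset.mul_sum, sum_cyc_shift]
      ring
    have hc : (0 : ℝ) < ((cyc g x).card : ℝ) := by exact_mod_cast card_cyc_pos g x
    have hcs : (∑ y ∈ cyc g x, f y) ^ 2 ≤ ((cyc g x).card : ℝ) * ∑ y ∈ cyc g x, f y ^ 2 :=
      sq_sum_le_card_mul_sum_sq
    rw [h2, div_pow, mul_pow, mul_div_assoc, ]
    refine mul_le_mul_of_nonneg_left ?_ (sq_nonneg _)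
    rw [div_le_div_iff₀ (by positivity) hc]
    nlinarith
  -- the form
  have h2 : (1 - w) * ∑ x ∈ univ \ A, f x ^ 2 ≤ φ ⬝ᵥ f := by
    have e1 : φ ⬝ᵥ f = ∑ x ∈ univ \ A, (f x ^ 2 - w * (f (g x) * f x)) := by
      unfold dotProduct
      rw [← Finset.sum_subset (Finset.subset_univ (univ \ A))]
      · refine Finset.sum_congr rfl fun x hx => ?_
        rw [hUf x (by simpa using hx)]
        ring
      · intro x _ hx
        have : x ∈ A := by simpa using hx
        rw [hAf x this, mul_zero]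
    have e2 : ∑ x ∈ univ \ A, f (g x) ^ 2 = ∑ x ∈ univ \ A, f x ^ 2 := by
      refine Finset.sum_nbij' (fun y => g y) (fun y => g⁻¹ y) ?_ ?_ ?_ ?_ ?_
      · intro y hy
        exact (hU y (g y) (Perm.sameCycle_apply_right.2 (Perm.SameCycle.refl g y))).1 hy
      · intro y hy
        exact (hU y (g⁻¹ y) (Perm.sameCycle_symm_apply_right.2 (Perm.SameCycle.refl g y))).1 hy
      · intro y _
        simp
      · intro y _
        simp
      · intro y _
        rfl
    have e3 : ∑ x ∈ univ \ A, f (g x) * f x ≤ ∑ x ∈ univ \ A, f x ^ 2 := by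
      have e4 : ∑ x ∈ univ \ A, f (g x) * f x ≤ ∑ x ∈ univ \ A, (f (g x) ^ 2 + f x ^ 2) / 2 :=
        Finset.sum_le_sum fun x _ => by nlinarith [sq_nonneg (f (g x) - f x)]
      refine e4.trans (le_of_eq ?_)
      rw [← Finset.sum_div, Finset.sum_add_distrib, e2]
      ring
    rw [e1, Finset.sum_sub_distrib, ← Finset.mul_sum]
    nlinarith
  have h3 : 0 ≤ 1 - w := by linarith
  calc _ ≤ (1 - w) ^ 2 * ∑ x ∈ univ \ A, f x ^ 2 := h1
    _ = (1 - w) * ((1 - w) * ∑ x ∈ univ \ A, f x ^ 2) := by ring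
    _ ≤ _ := mul_le_mul_of_nonneg_left h2 h3

/-- matrix determinant lemma -/
theorem det_rank_one (M : Matrix V V ℝ) (h : M.det ≠ 0) (φ : V → ℝ) :
    (M + Matrix.vecMulVec φ φ).det = M.det * (1 + φ ⬝ᵥ (M⁻¹ *ᵥ φ)) := by
  have hunit : IsUnit M.det := isUnit_iff_ne_zero.2 h
  have e1 : Matrix.vecMulVec φ φ = replicateCol Unit φ * replicateRow Unit φ := by
    rw [Matrix.vecMulVec_eq Unit]
  rw [e1, Matrix.det_add_replicateCol_mul_replicateRow hunit]
  congr 1
  rw [Matrix.det_unique, Matrix.add_apply, Matrix.one_apply_eq]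
  congr 1
  rw [Matrix.mul_assoc, Matrix.mul_apply]
  unfold dotProduct
  refine Finset.sum_congr rfl fun z _ => ?_
  rw [Matrix.replicateRow_apply, Matrix.mul_apply]
  simp only [Matrix.replicateCol_apply]
  rfl

theorem res : S_RES := by
  intro V _ _ e n δ w Λ B φ h0 h1 hw hw1 hΛ hB hφm hφ hres
  classical
  -- abbreviations
  have hP : ∀ ω : ℕ → Bool, Pool.Agent.Q68.LC.SS (pm (gp e ω n)) := fun ω => pm_SS _
  have hT : ∀ (ω : ℕ → Bool) (A : Finset V), Pool.Agent.Q68.LC.SS (TT e ω A δ n) := by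
    intro ω A
    obtain ⟨b1, b2, -, -, -, -⟩ := Pool.Agent.Q68.LC.bas2 V e ω A δ h0 h1
    exact ⟨b1 n, fun x => (b2 n x).le⟩
  have hdP : ∀ (ω : ℕ → Bool) (A : Finset V), 0 < (1 - w • (dg (univ \ A) * pm (gp e ω n))).det :=
    fun ω A => Pool.Agent.Q68.LC.det_pos (Pool.Agent.Q68.LC.SS_dg (hP ω) _) hw hw1
  have hdT : ∀ (ω : ℕ → Bool) (A : Finset V), 0 < (1 - w • (dg (univ \ A) * TT e ω A δ n)).det :=
    fun ω A => Pool.Agent.Q68.LC.det_pos (Pool.Agent.Q68.LC.SS_dg (hT ω A) _) hw hw1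
  obtain ⟨Θ, hΘ⟩ : ∃ Θ : Finset V → (ℕ → Bool) → ℝ, Θ = fun A ω =>
    if Inv (gp e ω n) A ∧ B ω A then w ^ A.card else 0 := ⟨_, rfl⟩
  have hΘ0 : ∀ A ω, 0 ≤ Θ A ω := by
    intro A ω
    rw [hΘ]
    beta_reduce
    split_ifs
    · positivity
    · exact le_rfl
  have hΘm : ∀ A, Rmeas e n A (Θ A) := by
    intro A ω ω' hag
    have hb := (Pool.Agent.Q68.LC.bas1 V e ω).2.2 A n ω' hag
    have hi : Inv (gp e ω n) A ↔ Inv (gp e ω' n) A := by
      unfold Q292.LC.Inv
      refine forall₂_congr fun a ha => ?_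
      rw [hb.1 n le_rfl a ha]
    have hBB := hB A ω ω' hag
    rw [hΘ]
    beta_reduce
    simp only [hi, hBB]
  -- the two identities
  have key : ∀ A, EE n δ (fun ω => Θ A ω * (dS w (univ \ A) (pm (gp e ω n)) *
      (φ ω A ⬝ᵥ ((1 - w • (dg (univ \ A) * pm (gp e ω n)))⁻¹ *ᵥ φ ω A)))) =
      EE n δ (fun ω => Θ A ω * (dS w (univ \ A) (TT e ω A δ n) *
      (φ ω A ⬝ᵥ ((1 - w • (dg (univ \ A) * TT e ω A δ n))⁻¹ *ᵥ φ ω A)))) := by
    intro A
    have l1 := Pool.Agent.Q257.LC.l1 V e n δ A (Θ A)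
      (fun ω => 1 + Matrix.vecMulVec (φ ω A) (φ ω A)) (fun _ => -(w • dg (univ \ A))) h0 h1
      (hΘm A) (by
        intro ω ω' hag
        have h9 : φ ω A = φ ω' A := hφm A ω ω' hag
        beta_reduce
        rw [h9]) (by intro ω ω' _; rfl)
    have l2 := Pool.Agent.Q257.LC.l1 V e n δ A (Θ A)
      (fun _ => 1) (fun _ => -(w • dg (univ \ A))) h0 h1
      (hΘm A) (by intro ω ω' _; rfl) (by intro ω ω' _; rfl)
    have c1 : ∀ (Q : Matrix V V ℝ) (ψ : V → ℝ), 0 < (1 - w • (dg (univ \ A) * Q)).det →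
        (1 + Matrix.vecMulVec ψ ψ + -(w • dg (univ \ A)) * Q).det =
        dS w (univ \ A) Q + dS w (univ \ A) Q *
          (ψ ⬝ᵥ ((1 - w • (dg (univ \ A) * Q))⁻¹ *ᵥ ψ)) := by
      intro Q ψ hQ
      have e1 : (1 + Matrix.vecMulVec ψ ψ + -(w • dg (univ \ A)) * Q) =
          (1 - w • (dg (univ \ A) * Q)) + Matrix.vecMulVec ψ ψ := by
        rw [Matrix.neg_mul, Matrix.smul_mul]
        abel
      rw [e1, det_rank_one _ hQ.ne']
      unfold dS
      ring
    have c2 : ∀ (Q : Matrix V V ℝ), (1 + -(w • dg (univ \ A)) * Q).det = dS w (univ \ A) Q := by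
      intro Q
      unfold dS
      rw [Matrix.neg_mul, Matrix.smul_mul, sub_eq_add_neg]
    have l1' : EE n δ (fun ω => Θ A ω * (dS w (univ \ A) (pm (gp e ω n)) +
        dS w (univ \ A) (pm (gp e ω n)) *
          (φ ω A ⬝ᵥ ((1 - w • (dg (univ \ A) * pm (gp e ω n)))⁻¹ *ᵥ φ ω A)))) =
        EE n δ (fun ω => Θ A ω * (dS w (univ \ A) (TT e ω A δ n) +
        dS w (univ \ A) (TT e ω A δ n) *
          (φ ω A ⬝ᵥ ((1 - w • (dg (univ \ A) * TT e ω A δ n))⁻¹ *ᵥ φ ω A)))) := by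
      refine Eq.trans ?_ (l1.trans ?_)
      · congr 1
        funext ω
        rw [c1 _ _ (hdP ω A)]
      · congr 1
        funext ω
        rw [c1 _ _ (hdT ω A)]
    have l2' : EE n δ (fun ω => Θ A ω * dS w (univ \ A) (pm (gp e ω n))) =
        EE n δ (fun ω => Θ A ω * dS w (univ \ A) (TT e ω A δ n)) := by
      refine Eq.trans ?_ (l2.trans ?_)
      · congr 1
        funext ω
        rw [c2]
      · congr 1
        funext ω
        rw [c2]
    simp only [mul_add] at l1'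
    rw [EE_add, EE_add, l2'] at l1'
    linarith
  have key2 : ∀ A, EE n δ (fun ω => Θ A ω * dS w (univ \ A) (TT e ω A δ n)) =
      EE n δ (fun ω => Θ A ω * dS w (univ \ A) (pm (gp e ω n))) := by
    intro A
    have l2 := Pool.Agent.Q257.LC.l1 V e n δ A (Θ A)
      (fun _ => 1) (fun _ => -(w • dg (univ \ A))) h0 h1
      (hΘm A) (by intro ω ω' _; rfl) (by intro ω ω' _; rfl)
    have c2 : ∀ (Q : Matrix V V ℝ), (1 + -(w • dg (univ \ A)) * Q).det = dS w (univ \ A) Q := by
      intro Q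
      unfold dS
      rw [Matrix.neg_mul, Matrix.smul_mul, sub_eq_add_neg]
    simp only [c2] at l2
    exact l2.symm
  -- each A
  have hA : ∀ A, EE n δ (fun ω => if Inv (gp e ω n) A then
      w ^ A.card * dS w (univ \ A) (pm (gp e ω n)) * (if B ω A then ∑ x ∈ univ \ A,
      ((∑ y ∈ cyc (gp e ω n) x, φ ω A y) / ((cyc (gp e ω n) x).card : ℝ)) ^ 2 else 0) else 0) ≤
      ((1 - w) * Λ) * EE n δ (fun ω => if Inv (gp e ω n) A then
        w ^ A.card * dS w (univ \ A) (pm (gp e ω n)) else 0) := by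
    intro A
    calc _ ≤ EE n δ (fun ω => (1 - w) * (Θ A ω * (dS w (univ \ A) (pm (gp e ω n)) *
        (φ ω A ⬝ᵥ ((1 - w • (dg (univ \ A) * pm (gp e ω n)))⁻¹ *ᵥ φ ω A))))) := by
          refine EE_mono h0 h1 fun ω => ?_
          rw [hΘ]
          beta_reduce
          by_cases hi : Inv (gp e ω n) A
          · by_cases hb : B ω A
            · rw [if_pos hi, if_pos hb, if_pos ⟨hi, hb⟩]
              have h3 := res_perm (gp e ω n) A w (φ ω A) hw hw1 hi (hφ ω A)
              have h4 := Pool.Agent.Q277.LC.wt_nonneg (gp e ω n) w hw hw1 A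
              calc _ ≤ _ := mul_le_mul_of_nonneg_left h3 h4
                _ = _ := by ring
            · rw [if_pos hi, if_neg hb, if_neg (fun h => hb h.2)]
              simp
          · rw [if_neg hi, if_neg (fun h => hi h.1)]
            simp
      _ = (1 - w) * EE n δ (fun ω => Θ A ω * (dS w (univ \ A) (TT e ω A δ n) *
        (φ ω A ⬝ᵥ ((1 - w • (dg (univ \ A) * TT e ω A δ n))⁻¹ *ᵥ φ ω A)))) := by
          rw [EE_smul, key A]
      _ ≤ (1 - w) * EE n δ (fun ω => Λ * (Θ A ω * dS w (univ \ A) (TT e ω A δ n))) := by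
          refine mul_le_mul_of_nonneg_left ?_ (by linarith)
          refine EE_mono h0 h1 fun ω => ?_
          rw [hΘ]
          beta_reduce
          by_cases hc : Inv (gp e ω n) A ∧ B ω A
          · rw [if_pos hc]
            have h3 := hres ω A hc.1 hc.2
            have h4 : 0 ≤ w ^ A.card * dS w (univ \ A) (TT e ω A δ n) :=
              mul_nonneg (by positivity) (hdT ω A).le
            calc _ = (w ^ A.card * dS w (univ \ A) (TT e ω A δ n)) *
                (φ ω A ⬝ᵥ ((1 - w • (dg (univ \ A) * TT e ω A δ n))⁻¹ *ᵥ φ ω A)) := by ring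
              _ ≤ _ := mul_le_mul_of_nonneg_left h3 h4
              _ = _ := by ring
          · rw [if_neg hc]
            simp
      _ = ((1 - w) * Λ) * EE n δ (fun ω => Θ A ω * dS w (univ \ A) (pm (gp e ω n))) := by
          rw [EE_smul, key2 A]
          ring
      _ ≤ _ := by
          refine mul_le_mul_of_nonneg_left ?_ (mul_nonneg (by linarith) hΛ)
          refine EE_mono h0 h1 fun ω => ?_
          rw [hΘ]
          beta_reduce
          have h4 := Pool.Agent.Q277.LC.wt_nonneg (gp e ω n) w hw hw1 A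
          by_cases hi : Inv (gp e ω n) A
          · by_cases hb : B ω A
            · rw [if_pos ⟨hi, hb⟩, if_pos hi]
            · rw [if_neg (fun h => hb h.2), if_pos hi, zero_mul]
              exact h4
          · rw [if_neg (fun h => hi h.1), if_neg hi, zero_mul]
  have hfin : PE e n δ w (fun ω A => if B ω A then ∑ x ∈ univ \ A,
      ((∑ y ∈ cyc (gp e ω n) x, φ ω A y) / ((cyc (gp e ω n) x).card : ℝ)) ^ 2 else 0) ≤
      (1 - w) * Λ := by
    unfold PE
    rw [Pool.Agent.Q277.LC.EE_sum n δ]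
    calc _ ≤ ∑ A : Finset V, ((1 - w) * Λ) * EE n δ (fun ω => if Inv (gp e ω n) A then
        w ^ A.card * dS w (univ \ A) (pm (gp e ω n)) else 0) := Finset.sum_le_sum fun A _ => hA A
      _ = ((1 - w) * Λ) * EE n δ (fun ω => ∑ A : Finset V, if Inv (gp e ω n) A then
        w ^ A.card * dS w (univ \ A) (pm (gp e ω n)) else 0) := by
          rw [Pool.Agent.Q277.LC.EE_sum n δ, Finset.mul_sum]
      _ = (1 - w) * Λ := by
          have : (fun ω => ∑ A : Finset V, if Inv (gp e ω n) A then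
            w ^ A.card * dS w (univ \ A) (pm (gp e ω n)) else 0) = fun _ => (1 : ℝ) := by
            funext ω
            exact Pool.Agent.Q277.LC.wt_sum (gp e ω n) w hw hw1
          rw [this, EE_const, mul_one]
  convert hfin using 2
  
end gen

end Pool.Agent.K9h51.LC
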